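import Mathlib

/-! Definitions for the closed rainbow relation on the second uncountable ordinal. -/

namespace Pool.Agent.P.MP_78ae2c_lc

open Ordinal

/-- The two-element subsets of a set of ordinals. -/
def pairs (X : Set Ordinal.{0}) : Set (Finset Ordinal.{0}) := {s | s.card = 2 ∧ ↑s ⊆ X}

/-- Every normal 2-bounded colouring of the pairs of `ω_ 2` has a closed rainbow subset of
order type `α`. -/
def ClosedRainbowArrow (α : Ordinal.{0}) : Prop :=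
  ∀ f : Finset Ordinal.{0} → Ordinal.{0},
    (∀ s ∈ pairs (Set.Iio (ω_ 2)), f s < ω_ 2) →
    (∀ s ∈ pairs (Set.Iio (ω_ 2)), ∀ t ∈ pairs (Set.Iio (ω_ 2)), f s = f t → s.max = t.max) →
    (∀ ξ < ω_ 2, {s ∈ pairs (Set.Iio (ω_ 2)) | f s = ξ}.encard ≤ 2) →
    ∃ A ⊆ Set.Iio (ω_ 2), (∀ γ < sSup A, γ ≠ 0 → sSup (A ∩ Set.Iio γ) = γ → γ ∈ A) ∧
      Set.InjOn f (pairs A) ∧ Nonempty (Set.Iio α ≃o A)

end Pool.Agent.P.MP_78ae2c_lc
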