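import Pool.Agent.P.MP_78ae2c_lc.Ulam

/-! Side conditions: countable closed sets and large sets. -/

namespace Pool.Agent.P.MP_78ae2c_lc.MMx

open Set

universe u

/-- codes for side conditions -/
inductive U (W K : Type u) : Type u
  | nil : U W K
  | mk (a : W) (b : K) (f : Finset (W × K) → W × K) (N : ℕ → U W K) : U W K

variable {W K : Type u}

/-- working part -/
noncomputable def U.wp [Nonempty W] [Nonempty K] : U W K → W × K
  | .nil => Classical.arbitrary _
  | .mk a b _ _ => (a, b)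

/-- coded function -/
noncomputable def U.ph [Nonempty W] [Nonempty K] : U W K → Finset (W × K) → W × K
  | .nil => fun _ => Classical.arbitrary _
  | .mk _ _ f _ => f

/-- coded countable set -/
def U.ns : U W K → ℕ → U W K
  | .nil => fun _ => .nil
  | .mk _ _ _ N => N

/-- an element with given working part -/
def U.el (p : W × K) : U W K := .mk p.1 p.2 (fun _ => p) fun _ => .nil

@[simp] theorem wp_el [Nonempty W] [Nonempty K] (p : W × K) : (U.el p).wp = p := rfl

section closure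

variable {X : Type u}

/-- closed under a finitary operation -/
def Closed (h : Finset X → Set X) (N : Set X) : Prop := ∀ t : Finset X, ↑t ⊆ N → h t ⊆ N

/-- closure -/
def clo (h : Finset X → Set X) (A : Set X) : Set X := ⋂₀ {B | A ⊆ B ∧ Closed h B}

theorem subset_clo (h : Finset X → Set X) (A : Set X) : A ⊆ clo h A :=
  fun _ hx _ hB => hB.1 hx

theorem clo_closed (h : Finset X → Set X) (A : Set X) : Closed h (clo h A) :=
  fun t ht _ hx B hB => hB.2 t (fun _ hy => ht hy B hB) hx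

theorem clo_least {h : Finset X → Set X} {A B : Set X} (h1 : A ⊆ B) (h2 : Closed h B) :
    clo h A ⊆ B := fun _ hx => hx B ⟨h1, h2⟩

theorem clo_mono (h : Finset X → Set X) {A B : Set X} (h1 : A ⊆ B) : clo h A ⊆ clo h B :=
  clo_least (h1.trans (subset_clo h B)) (clo_closed h B)

theorem closed_iUnion {ι : Type*} [Nonempty ι] {h : Finset X → Set X} {f : ι → Set X}
    (hd : Directed (· ⊆ ·) f) (hc : ∀ i t, ↑t ⊆ f i → ∃ j, h t ⊆ f j) : Closed h (⋃ i, f i) := by
  intro t ht
  obtain ⟨i, hi⟩ := hd.exists_mem_subset_of_finset_subset_biUnion ht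
  obtain ⟨j, hj⟩ := hc i t hi
  exact hj.trans (subset_iUnion f j)

theorem ctble_fin {A : Set X} (hA : A.Countable) : {t : Finset X | ↑t ⊆ A}.Countable :=
  ((countable_ofPred_finite_subset hA).preimage Finset.coe_injective).mono
    fun t ht => And.intro t.finite_toSet ht

theorem clo_ctble {h : Finset X → Set X} (hh : ∀ t, (h t).Countable) {A : Set X}
    (hA : A.Countable) : (clo h A).Countable := by
  let L : ℕ → Set X := fun n => Nat.rec A (fun _ B => B ∪ ⋃ t ∈ {t : Finset X | ↑t ⊆ B}, h t) n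
  have hL : ∀ n, L (n + 1) = L n ∪ ⋃ t ∈ {t : Finset X | ↑t ⊆ L n}, h t := fun _ => rfl
  have hc : ∀ n, (L n).Countable := by
    intro n
    induction n with
    | zero => exact hA
    | succ n ih => rw [hL]; exact ih.union ((ctble_fin ih).biUnion fun t _ => hh t)
  have hm : Monotone L := monotone_nat_of_le_succ fun n => by rw [hL]; exact subset_union_left
  refine (countable_iUnion hc).mono (clo_least (subset_iUnion L 0) ?_)
  refine closed_iUnion hm.directed_le fun i t ht => ⟨i + 1, ?_⟩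
  rw [hL]
  exact (subset_biUnion_of_mem (u := h) (show t ∈ {t : Finset X | ↑t ⊆ L i} from ht)).trans
    subset_union_right

/-- the index type of the operations we use -/
abbrev Ix (X : Type u) : Type u := Finset X × Finset (X × X) × X × ℕ × Finset X

/-- an index supported in a set -/
def Sp (x : Ix X) (N : Set X) : Prop :=
  ↑x.1 ⊆ N ∧ ↑x.2.1 ⊆ N ×ˢ N ∧ x.2.2.1 ∈ N ∧ ↑x.2.2.2.2 ⊆ N

theorem alg_of (H : Ix X → Set X) (hH : ∀ x, (H x).Countable) :
    ∃ h : Finset X → Set X, (∀ t, (h t).Countable) ∧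
      ∀ N, Closed h N → ∀ x, Sp x N → H x ⊆ N := by
  classical
  refine ⟨fun t => ⋃ x ∈ {x : Ix X | Sp x ↑t}, H x, fun t => Countable.biUnion ?_ fun x _ => hH x,
    fun N hN x hx => ?_⟩
  · have h1 := t.countable_toSet
    exact ((ctble_fin h1).prod ((ctble_fin (h1.prod h1)).prod (h1.prod
      ((countable_univ (α := ℕ)).prod (ctble_fin h1))))).mono
      fun x hx => mk_mem_prod hx.1 (mk_mem_prod hx.2.1 (mk_mem_prod hx.2.2.1
        (mk_mem_prod (mem_univ _) hx.2.2.2)))
  · obtain ⟨h1, h2, h3, h4⟩ := hx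
    let t : Finset X := x.1 ∪ x.2.1.image Prod.fst ∪ x.2.1.image Prod.snd ∪ {x.2.2.1} ∪ x.2.2.2.2
    refine subset_trans ?_ (hN t ?_)
    · refine subset_biUnion_of_mem (u := H) (show x ∈ {x : Ix X | Sp x ↑t} from ⟨?_, ?_, ?_, ?_⟩)
      · intro y hy; simp only [t, Finset.coe_union, mem_union]; tauto
      · intro p hp
        have h5 : p.1 ∈ (x.2.1.image Prod.fst : Set X) := Finset.mem_image_of_mem _ hp
        have h6 : p.2 ∈ (x.2.1.image Prod.snd : Set X) := Finset.mem_image_of_mem _ hp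
        constructor <;> simp only [t, Finset.coe_union, mem_union] <;> tauto
      · simp [t]
      · intro y hy; simp only [t, Finset.coe_union, mem_union]; tauto
    · simp only [t, Finset.coe_union, union_subset_iff, Finset.coe_image, Finset.coe_singleton,
        singleton_subset_iff, image_subset_iff]
      exact ⟨⟨⟨⟨h1, fun p hp => (h2 hp).1⟩, fun p hp => (h2 hp).2⟩, h3⟩, h4⟩

end closure

variable [LinearOrder W] [LinearOrder K] [Nonempty W] [Nonempty K]

/-- the two orders behave like the first two uncountable ordinals -/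
structure Ord2 (W K : Type u) [LinearOrder W] [LinearOrder K] : Prop where
  w1 : ∀ s : Set W, s.Countable → ∃ b, ∀ x ∈ s, x < b
  w2 : ∀ x : W, (Iic x).Countable
  k1 : ∀ g : W → K, ∃ b, ∀ i, g i < b
  k2 : ∀ s : Set K, s.Countable → ∃ b, ∀ x ∈ s, x < b

/-- `(a, b)` is the pair of heights of `N` -/
def Top (N : Set (U W K)) (a : W) (b : K) : Prop :=
  (∀ w ∈ N, w.wp.1 < a ∧ w.wp.2 < b) ∧ (∀ ζ < a, ∃ w ∈ N, w.wp.1 = ζ) ∧
    ∀ γ < b, ∃ w ∈ N, γ ≤ w.wp.2

/-- `b` is a height of closed countable sets for club many first heights -/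
def Nice (h : Finset (U W K) → Set (U W K)) (b : K) : Prop :=
  ∃ g : W → W, ∀ a, Cl g a → ∃ N : Set (U W K), N.Countable ∧ Closed h N ∧ Top N a b

/-- large sets -/
def Large (W : Type u) [LinearOrder W] [Nonempty W] (T : Set K) : Prop :=
  ∀ h : Finset (U W K) → Set (U W K), (∀ t, (h t).Countable) → ∃ b ∈ T, Nice h b

theorem Nice.mono {h h' : Finset (U W K) → Set (U W K)} {b : K} (hh : ∀ t, h t ⊆ h' t)
    (hb : Nice h' b) : Nice h b := by
  obtain ⟨g, hg⟩ := hb
  refine ⟨g, fun a ha => ?_⟩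
  obtain ⟨N, h1, h2, h3⟩ := hg a ha
  exact ⟨N, h1, fun t ht => (hh t).trans (h2 t ht), h3⟩

theorem Large.mono {T T' : Set K} (hT : Large W T) (h : T ⊆ T') : Large W T' := fun g hg =>
  let ⟨b, hb, hn⟩ := hT g hg
  ⟨b, h hb, hn⟩

theorem Large.split {ι : Type*} {I : Set ι} (hI : I.Countable) {T : Set K} (hT : Large W T)
    (f : ι → Set K) (hf : ∀ b ∈ T, ∃ i ∈ I, b ∈ f i) : ∃ i ∈ I, Large W (f i) := by
  by_contra hc
  simp only [Large, not_exists, not_and, not_forall] at hc
  choose g hg1 hg2 using hc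
  obtain ⟨b, hb, hn⟩ := hT (fun t => ⋃ i : I, g i.1 i.2 t) fun t =>
    have := hI.to_subtype
    countable_iUnion fun i => hg1 _ _ t
  obtain ⟨i, hi, hbi⟩ := hf b hb
  exact hg2 i hi b hbi (hn.mono fun t => subset_iUnion (fun i : I => g i.1 i.2 t) ⟨i, hi⟩)

variable [WellFoundedLT W] [WellFoundedLT K]

omit [WellFoundedLT K] in
theorem Large.above (o : Ord2 W K) {T : Set K} (hT : Large W T) (γ : K)
    (h : Finset (U W K) → Set (U W K)) (hh : ∀ t, (h t).Countable) :
    ∃ b ∈ T, γ < b ∧ Nice h b := by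
  obtain ⟨b, hb, hn⟩ := hT (fun t => insert (U.el (Classical.arbitrary W, γ)) (h t))
    fun t => (hh t).insert _
  refine ⟨b, hb, ?_, hn.mono fun t => subset_insert _ _⟩
  obtain ⟨g, hg⟩ := hn
  obtain ⟨a, -, ha⟩ := good_Ioi o.w1 o.w2 (Classical.arbitrary W) g
  obtain ⟨N, -, h2, h3⟩ := hg a ha
  exact (h3.1 _ (h2 ∅ (by simp) (mem_insert _ _))).2

omit [WellFoundedLT W] in
theorem large_univ (o : Ord2 W K) : Large W (univ : Set K) := by
  classical
  intro h hh
  let a0 := Classical.arbitrary W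
  let b0 := Classical.arbitrary K
  let E : Set W → Set (U W K) := fun s => (fun ζ => U.el (ζ, b0)) '' s
  have hb : ∀ A : Set (U W K), ∃ b, A.Countable → ∀ ζ, ∀ w ∈ clo h (A ∪ E (Iic ζ)), w.wp.2 < b := by
    intro A
    by_cases hA : A.Countable
    · have : ∀ ζ, ∃ b, ∀ x ∈ (fun w : U W K => w.wp.2) '' clo h (A ∪ E (Iic ζ)), x < b := fun ζ =>
        o.k2 _ ((clo_ctble hh (hA.union ((o.w2 ζ).image _))).image _)
      choose g hg using this
      obtain ⟨b, hb⟩ := o.k1 g
      exact ⟨b, fun _ ζ w hw => (hg ζ _ ⟨w, hw, rfl⟩).trans (hb ζ)⟩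
    · exact ⟨b0, fun h => absurd h hA⟩
  choose B hB using hb
  let A : ℕ → Set (U W K) := fun n => Nat.rec ∅ (fun _ S => insert (U.el (a0, B S)) S) n
  have hA : ∀ n, A (n + 1) = insert (U.el (a0, B (A n))) (A n) := fun _ => rfl
  have hAc : ∀ n, (A n).Countable := by
    intro n
    induction n with
    | zero => exact countable_empty
    | succ n ih => rw [hA]; exact ih.insert _
  have hAm : Monotone A := monotone_nat_of_le_succ fun n => by rw [hA]; exact subset_insert _ _
  obtain ⟨b1, hb1⟩ := o.k2 (range fun n => B (A n)) (countable_range _)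
  let V : Set K := {b | ∀ n, B (A n) < b}
  have hV : V.Nonempty := ⟨b1, fun n => hb1 _ ⟨n, rfl⟩⟩
  have hg : ∀ ζ, ∃ a, ∀ x ∈ (fun w : U W K => w.wp.1) '' ⋃ n, clo h (A n ∪ E (Iic ζ)), x < a :=
    fun ζ => o.w1 _ ((countable_iUnion fun n =>
      clo_ctble hh ((hAc n).union ((o.w2 ζ).image _))).image _)
  choose g hg using hg
  refine ⟨wellFounded_lt.min V hV, mem_univ _, g, fun a ha => ?_⟩
  have hm : wellFounded_lt.min V hV ∈ V := wellFounded_lt.min_mem V hV
  obtain ⟨⟨a1, ha1⟩, ha⟩ := ha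
  have : Nonempty (Iio a) := ⟨⟨a1, ha1⟩⟩
  have : Countable (Iio a) := ((o.w2 a).mono Iio_subset_Iic_self).to_subtype
  refine ⟨⋃ i : ℕ × Iio a, clo h (A i.1 ∪ E (Iic i.2.1)),
    countable_iUnion fun i => clo_ctble hh ((hAc _).union ((o.w2 _).image _)), ?_, ?_, ?_, ?_⟩
  · refine closed_iUnion ?_ fun i t ht => ⟨i, clo_closed _ _ t ht⟩
    refine Monotone.directed_le fun i j hij =>
      clo_mono h (union_subset_union (hAm (Prod.le_def.1 hij).1) ?_)
    exact image_mono (Iic_subset_Iic.2 (Prod.le_def.1 hij).2)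
  · intro w hw
    obtain ⟨i, hi⟩ := mem_iUnion.1 hw
    exact ⟨(hg i.2.1 _ ⟨w, mem_iUnion.2 ⟨i.1, hi⟩, rfl⟩).trans (ha _ i.2.2),
      (hB _ (hAc _) _ w hi).trans (hm _)⟩
  · intro ζ hζ
    exact ⟨U.el (ζ, b0), mem_iUnion.2 ⟨(0, ⟨ζ, hζ⟩), subset_clo _ _
      (Or.inr ⟨ζ, le_refl ζ, rfl⟩)⟩, rfl⟩
  · intro γ hγ
    have : γ ∉ V := fun h => wellFounded_lt.not_lt_min V h hγ
    simp only [V, mem_ofPred_eq, not_forall, not_lt] at this
    obtain ⟨n, hn⟩ := this
    exact ⟨U.el (a0, B (A n)), mem_iUnion.2 ⟨(n + 1, ⟨a1, ha1⟩), subset_clo _ _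
      (Or.inl (by rw [hA]; exact mem_insert _ _))⟩, hn⟩

end Pool.Agent.P.MP_78ae2c_lc.MMx
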