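import Pool.Agent.P.MP_78ae2c_lc.MM1

/-! The conditions, and adding a side condition on top. -/

namespace Pool.Agent.P.MP_78ae2c_lc.MMx

open Set

universe u

variable {W K C : Type u} [LinearOrder W] [LinearOrder K] [Nonempty W] [Nonempty K]

/-- `F · b` is one-to-one on the points of `Q` below `b` -/
def Inj (F : K → K → C) (b : K) (Q : Set K) : Prop :=
  ∀ x ∈ Q, ∀ y ∈ Q, x < b → y < b → F x b = F y b → x = y

omit [Nonempty K] in
theorem Inj.mono {F : K → K → C} {b : K} {Q Q' : Set K} (h : Inj F b Q) (hQ : Q' ⊆ Q) :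
    Inj F b Q' := fun x hx y hy => h x (hQ hx) y (hQ hy)

omit [Nonempty K] in
theorem avoid {F : K → K → C} (hF : ∀ b col, {y | y < b ∧ F y b = col}.Finite) {B Q : Set K}
    (hB : B.Finite) (hQ : Q.Finite) (h : ∀ b ∈ B, Inj F b Q) {X : Set K} (hX : X.Infinite) :
    ∃ x ∈ X, ∀ b ∈ B, Inj F b (insert x Q) := by
  have h1 : (⋃ b ∈ B, ⋃ y ∈ Q, {x | x < b ∧ F x b = F y b}).Finite :=
    hB.biUnion fun b _ => hQ.biUnion fun y _ => hF b _
  obtain ⟨x, hx, hn⟩ := hX.exists_notMem_finite h1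
  simp only [mem_iUnion, mem_ofPred_eq, not_exists, not_and] at hn
  refine ⟨x, hx, fun b hb => ?_⟩
  rintro y (rfl | hy) z (rfl | hz) l1 l2 e
  · rfl
  · exact absurd e (hn b hb z hz l1)
  · exact absurd e.symm (hn b hb y hy l2)
  · exact h b hb y hy z hz l1 l2 e

/-- the data: a colouring, a ladder, its top, and base points -/
structure Dat (W K C : Type u) where
  F : K → K → C
  c : W → K
  δ : K
  Q : Set K

/-- assumptions on the data -/
structure Dat.Ok (D : Dat W K C) : Prop where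
  o : Ord2 W K
  fin : ∀ b col, {y | y < b ∧ D.F y b = col}.Finite
  inj : Function.Injective D.c
  lt : ∀ a, D.c a < D.δ
  qf : D.Q.Finite

variable (D : Dat W K C)

/-- points given by working parts -/
def Dat.pp (s : Set (W × K)) : Set K := D.Q ∪ (fun p => D.c p.1) '' s ∪ Prod.snd '' s

/-- points of a set of codes -/
def Dat.pts (r : Set (U W K)) : Set K := D.pp (U.wp '' r)

omit [LinearOrder W] [LinearOrder K] [Nonempty W] [Nonempty K] in
theorem Dat.P_mono {s t : Set (W × K)} (h : s ⊆ t) : D.pp s ⊆ D.pp t :=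
  union_subset_union (union_subset_union_right _ (image_mono h)) (image_mono h)

omit [LinearOrder W] [LinearOrder K] in
theorem Dat.pts_mono {s t : Set (U W K)} (h : s ⊆ t) : D.pts s ⊆ D.pts t :=
  D.P_mono (image_mono h)

omit [LinearOrder W] [LinearOrder K] in
theorem Dat.mem_pts {r : Set (U W K)} {y : K} :
    y ∈ D.pts r ↔ y ∈ D.Q ∨ (∃ u ∈ r, D.c u.wp.1 = y) ∨ ∃ u ∈ r, u.wp.2 = y := by
  simp [Dat.pts, Dat.pp, or_assoc]

omit [LinearOrder W] [LinearOrder K] [Nonempty W] [Nonempty K] in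
theorem Dat.P_insert (p : W × K) (s : Set (W × K)) :
    D.pp (insert p s) = insert (D.c p.1) (insert p.2 (D.pp s)) := by
  ext y
  simp only [Dat.pp, image_insert_eq, mem_union, mem_insert_iff]
  tauto

omit [Nonempty W] [Nonempty K] in
theorem Dat.P_fin (ok : D.Ok) {s : Set (W × K)} (h : s.Finite) : (D.pp s).Finite :=
  (ok.qf.union (h.image _)).union (h.image _)

/-- a side condition -/
def Dat.Model (v : U W K) : Prop :=
  Top (range v.ns) v.wp.1 v.wp.2 ∧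
  (∀ w ∈ range v.ns, ∀ t : Finset (W × K), ↑t ⊆ U.wp '' range v.ns →
    (w.ph t).1 < v.wp.1 ∧ (w.ph t).2 < v.wp.2) ∧
  (∀ w ∈ range v.ns, D.δ ≤ w.wp.2 → ∀ y ∈ D.pts (range v.ns),
    D.F (D.c v.wp.1) w.wp.2 ≠ D.F y w.wp.2) ∧
  ∃ w ∈ range v.ns, w.wp.2 = D.δ

open Classical in
/-- the basic operations -/
def Dat.H0 (x : Ix (U W K)) : Set (U W K) :=
  insert (U.el (x.2.2.1.wp.1, D.δ)) (insert (U.el (x.2.2.1.ph (x.2.2.2.2.image U.wp)))
    (range x.2.2.1.ns ∪ (fun a => U.el (a, D.δ)) '' {a | D.δ ≤ x.2.2.1.wp.2 ∧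
      ∃ y ∈ D.pts ↑x.2.2.2.2, D.F (D.c a) x.2.2.1.wp.2 = D.F y x.2.2.1.wp.2}))

theorem Dat.H0_ctble (ok : D.Ok) (x : Ix (U W K)) : (D.H0 x).Countable := by
  refine (((countable_range _).union (Countable.image ?_ _)).insert _).insert _
  have h1 : (⋃ y ∈ D.pts ↑x.2.2.2.2,
      {z | z < x.2.2.1.wp.2 ∧ D.F z x.2.2.1.wp.2 = D.F y x.2.2.1.wp.2}).Finite :=
    (D.P_fin ok ((Finset.finite_toSet _).image _)).biUnion fun y _ => ok.fin _ _
  refine ((h1.preimage ok.inj.injOn).subset ?_).countable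
  rintro a ⟨h2, y, hy, e⟩
  exact mem_biUnion hy ⟨(ok.lt a).trans_le h2, e⟩

/-- closed under the basic operations -/
def Dat.Basic (N : Set (U W K)) : Prop := ∀ x, Sp x N → D.H0 x ⊆ N

variable {D}

theorem Dat.Basic.ns {N : Set (U W K)} (h : D.Basic N) {w : U W K} (hw : w ∈ N) :
    range w.ns ⊆ N := fun _ hy =>
  h (∅, ∅, w, 0, ∅) ⟨by simp, by simp, hw, by simp⟩ (Or.inr (Or.inr (Or.inl hy)))

theorem model_of {N : Set (U W K)} (h : D.Basic N) (hc : N.Countable) (hn : N.Nonempty) {a : W}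
    {b : K} (ht : Top N a b) : ∃ v : U W K, v.wp = (a, b) ∧ range v.ns = N ∧ D.Model v := by
  classical
  obtain ⟨f, rfl⟩ := hc.exists_eq_range hn
  refine ⟨.mk a b (fun _ => (a, b)) f, rfl, rfl, ht, ?_, ?_, ?_⟩
  · intro w hw t hs
    obtain ⟨s, hs1, rfl⟩ := Finset.subset_set_image_iff.1 hs
    exact ht.1 _ (h (∅, ∅, w, 0, s) ⟨by simp, by simp, hw, hs1⟩ (Or.inr (Or.inl rfl)))
  · intro w hw hd y hy e
    obtain ⟨s, hs, hy⟩ : ∃ s : Finset (U W K), ↑s ⊆ range f ∧ y ∈ D.pts ↑s := by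
      rcases D.mem_pts.1 hy with hy | ⟨u, hu, hy⟩ | ⟨u, hu, hy⟩
      · exact ⟨∅, by simp, D.mem_pts.2 (Or.inl hy)⟩
      · exact ⟨{u}, by rw [Finset.coe_singleton]; exact singleton_subset_iff.2 hu,
          D.mem_pts.2 (Or.inr (Or.inl ⟨u, by simp, hy⟩))⟩
      · exact ⟨{u}, by rw [Finset.coe_singleton]; exact singleton_subset_iff.2 hu,
          D.mem_pts.2 (Or.inr (Or.inr ⟨u, by simp, hy⟩))⟩
    exact lt_irrefl a (ht.1 _ (h (∅, ∅, w, 0, s) ⟨by simp, by simp, hw, hs⟩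
      (Or.inr (Or.inr (Or.inr ⟨a, ⟨hd, y, hy, e⟩, rfl⟩))))).1
  · exact ⟨_, h (∅, ∅, f 0, 0, ∅) ⟨by simp, by simp, ⟨0, rfl⟩, by simp⟩ (Or.inl rfl), rfl⟩

theorem Dat.Model.lt {v : U W K} (h : D.Model v) : D.δ < v.wp.2 := by
  obtain ⟨w, hw, e⟩ := h.2.2.2
  exact e ▸ (h.1.1 w hw).2

variable (D)

/-- a chain of side conditions -/
def Dat.Chain (r : Set (U W K)) : Prop :=
  (∀ v ∈ r, D.Model v) ∧
  (∀ u ∈ r, ∀ v ∈ r, u.wp.1 < v.wp.1 → u ∈ range v.ns ∧ range u.ns ⊆ range v.ns) ∧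
  ∀ u ∈ r, ∀ v ∈ r, u.wp.1 = v.wp.1 → u = v

/-- a condition -/
def Dat.IsCond (p : Finset (U W K) × Finset (U W K × U W K)) : Prop :=
  D.Chain ↑p.1 ∧
  (∀ q ∈ p.2, ∀ v ∈ p.1, q.1.wp.1 < v.wp.1 → q.1 ∈ range v.ns ∧ q.2 ∈ range v.ns) ∧
  (∀ v ∈ p.1, Inj D.F v.wp.2 (D.pts ↑p.1)) ∧ Large W {b | Inj D.F b (D.pts ↑p.1)}

variable {D}

theorem Dat.Chain.sub {r : Set (U W K)} (h : D.Chain r) {u v : U W K} (hu : u ∈ r) (hv : v ∈ r)
    (l : u.wp.1 ≤ v.wp.1) : range u.ns ⊆ range v.ns := by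
  rcases l.lt_or_eq with l | l
  · exact (h.2.1 u hu v hv l).2
  · rw [h.2.2 u hu v hv l]

theorem up_inj {r A : Set (U W K)} (h : D.Chain r) {b : K} (hb : D.δ ≤ b) (hA : A ⊆ r)
    (h1 : ∀ u ∈ A, ∀ v ∈ r, v ∉ A → u.wp.1 < v.wp.1)
    (h2 : ∀ v ∈ r, v ∉ A → ∃ w ∈ range v.ns, w.wp.2 = b) (h3 : Inj D.F b (D.pts A)) :
    Inj D.F b (D.pts r) := by
  have key : ∀ v ∈ r, v ∉ A → ∀ y ∈ D.pts (range v.ns), D.F (D.c v.wp.1) b ≠ D.F y b := by
    intro v hv hvA y hy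
    obtain ⟨w, hw, rfl⟩ := h2 v hv hvA
    exact (h.1 v hv).2.2.1 w hw hb y hy
  have k1 : ∀ v ∈ r, v ∉ A → D.pts A ⊆ D.pts (range v.ns) := fun v hv hvA =>
    D.pts_mono fun u hu => (h.2.1 u (hA hu) v hv (h1 u hu v hv hvA)).1
  have cl : ∀ x ∈ D.pts r, x < b → x ∈ D.pts A ∨ ∃ v ∈ r, v ∉ A ∧ D.c v.wp.1 = x := by
    intro x hx l
    rcases D.mem_pts.1 hx with hx | ⟨u, hu, hx⟩ | ⟨u, hu, hx⟩
    · exact Or.inl (D.mem_pts.2 (Or.inl hx))
    · by_cases huA : u ∈ A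
      · exact Or.inl (D.mem_pts.2 (Or.inr (Or.inl ⟨u, huA, hx⟩)))
      · exact Or.inr ⟨u, hu, huA, hx⟩
    · by_cases huA : u ∈ A
      · exact Or.inl (D.mem_pts.2 (Or.inr (Or.inr ⟨u, huA, hx⟩)))
      · obtain ⟨w, hw, e⟩ := h2 u hu huA
        have := ((h.1 u hu).1.1 w hw).2
        rw [e, hx] at this
        exact absurd l this.not_gt
  intro x hx y hy l1 l2 e
  rcases cl x hx l1 with hx | ⟨u, hu, huA, rfl⟩ <;> rcases cl y hy l2 with hy | ⟨v, hv, hvA, rfl⟩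
  · exact h3 x hx y hy l1 l2 e
  · exact absurd e.symm (key v hv hvA x (k1 v hv hvA hx))
  · exact absurd e (key u hu huA y (k1 u hu huA hy))
  · rcases lt_trichotomy u.wp.1 v.wp.1 with l | l | l
    · exact absurd e.symm (key v hv hvA _
        (D.mem_pts.2 (Or.inr (Or.inl ⟨u, (h.2.1 u hu v hv l).1, rfl⟩))))
    · rw [l]
    · exact absurd e (key u hu huA _
        (D.mem_pts.2 (Or.inr (Or.inl ⟨v, (h.2.1 v hv u hu l).1, rfl⟩))))

omit [Nonempty W] in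
theorem good_inf {S : Set W} (hS : Good S) (g : W → W) : {a ∈ S | Cl g a}.Infinite := by
  intro hf
  obtain ⟨a, -, -⟩ := hS g
  have : Nonempty W := ⟨a⟩
  obtain ⟨m, hm⟩ := hf.bddAbove
  obtain ⟨b, hb, ⟨ξ, hξ⟩, h2⟩ := hS fun ζ => max (g ζ) m
  have h3 : b ≤ m := hm ⟨hb, ⟨ξ, hξ⟩, fun ζ hζ => (le_max_left _ _).trans_lt (h2 ζ hζ)⟩
  exact absurd ((le_max_right _ _).trans_lt (h2 ξ hξ)) h3.not_gt

theorem sub_ctble {X : Type*} {s : Set X} (h : s.Infinite) :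
    ∃ t ⊆ s, t.Countable ∧ t.Infinite :=
  ⟨range fun n => (h.natEmbedding s n).1, by rintro _ ⟨n, rfl⟩; exact (h.natEmbedding s n).2,
    countable_range _,
    infinite_range_of_injective (Subtype.val_injective.comp (h.natEmbedding s).injective)⟩

variable [WellFoundedLT W]

open Classical in
theorem add_top (ok : D.Ok) {p : Finset (U W K) × Finset (U W K × U W K)} (hp : D.IsCond p)
    (H : Ix (U W K) → Set (U W K)) (hH : ∀ x, (H x).Countable) {S : Set W} (hS : Good S) :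
    ∃ v : U W K, (∀ x, Sp x (range v.ns) → H x ⊆ range v.ns) ∧ D.Basic (range v.ns) ∧
      v.wp.1 ∈ S ∧ D.IsCond (insert v p.1, p.2) := by
  obtain ⟨h, hh, hc⟩ := alg_of (fun x => H x ∪ D.H0 x) fun x => (hH x).union (D.H0_ctble ok x)
  let h' : Finset (U W K) → Set (U W K) := fun t =>
    h t ∪ (↑p.1 ∪ Prod.fst '' (↑p.2 : Set (U W K × U W K)) ∪ Prod.snd '' (↑p.2 : Set (U W K × U W K)))
  have hh' : ∀ t, (h' t).Countable := fun t => (hh t).union
    ((p.1.countable_toSet.union (p.2.countable_toSet.image _)).union (p.2.countable_toSet.image _))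
  have hQ : (D.pts ↑p.1).Finite := D.P_fin ok (p.1.finite_toSet.image _)
  have hT : {b | Inj D.F b (D.pts ↑p.1) ∧ Nice h' b}.Infinite := by
    intro hf
    obtain ⟨m, hm⟩ := hf.bddAbove
    obtain ⟨b, hb, l, hn⟩ := hp.2.2.2.above ok.o m h' hh'
    exact absurd l (hm ⟨hb, hn⟩).not_gt
  obtain ⟨T, hT1, hT2, hT3⟩ := sub_ctble hT
  have hX : ∀ b : K, ∃ X : Set W, X.Countable ∧ (b ∈ T → X.Infinite ∧ ∀ a ∈ X, a ∈ S ∧
      ∃ N : Set (U W K), N.Countable ∧ N.Nonempty ∧ Closed h' N ∧ Top N a b) := by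
    intro b
    by_cases hb : b ∈ T
    · obtain ⟨g, hg⟩ := (hT1 hb).2
      obtain ⟨X, h1, h2, h3⟩ := sub_ctble (good_inf hS g)
      refine ⟨X, h2, fun _ => ⟨h3, fun a ha => ⟨(h1 ha).1, ?_⟩⟩⟩
      obtain ⟨N, n1, n2, n3⟩ := hg a (h1 ha).2
      obtain ⟨ξ, hξ⟩ := (h1 ha).2.1
      obtain ⟨w, hw, -⟩ := n3.2.1 ξ hξ
      exact ⟨N, n1, ⟨w, hw⟩, n2, n3⟩
    · exact ⟨∅, countable_empty, fun h => absurd h hb⟩
  choose X hX1 hX2 using hX
  have hI : (⋃ b ∈ T, X b ×ˢ {b}).Countable :=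
    hT2.biUnion fun b _ => (hX1 b).prod (countable_singleton b)
  obtain ⟨⟨a, b⟩, hi, hL⟩ := hp.2.2.2.split hI
    (fun i => {b | Inj D.F b (insert (D.c i.1) (insert i.2 (D.pts ↑p.1))) ∧
      Inj D.F i.2 (insert (D.c i.1) (insert i.2 (D.pts ↑p.1)))}) (by
    intro b hb
    obtain ⟨x, hx, h1⟩ := avoid ok.fin (finite_singleton b) hQ (by simpa using hb) hT3
    obtain ⟨_, ⟨a, ha, rfl⟩, h2⟩ := avoid ok.fin (B := {b, x}) (toFinite _) (hQ.insert x) (by
      rintro _ (rfl | rfl)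
      · exact h1 _ rfl
      · rintro y (rfl | hy) z (rfl | hz) l1 l2
        · exact fun _ => rfl
        · exact absurd l1 (lt_irrefl _)
        · exact absurd l2 (lt_irrefl _)
        · exact (hT1 hx).1 y hy z hz l1 l2) ((hX2 x hx).1.image ok.inj.injOn)
    exact ⟨(a, x), mem_biUnion hx ⟨ha, rfl⟩, h2 _ (Or.inl rfl), h2 _ (Or.inr rfl)⟩)
  obtain ⟨ha, hb⟩ : a ∈ X b ∧ b ∈ T := by simpa using hi
  obtain ⟨haS, N, n1, n2, n3, n4⟩ := (hX2 b hb).2 a ha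
  have hN : ∀ x, Sp x N → H x ∪ D.H0 x ⊆ N :=
    hc N fun t ht => subset_union_left.trans (n3 t ht)
  have hB : D.Basic N := fun x hx => subset_union_right.trans (hN x hx)
  have hpN := subset_union_right.trans (n3 ∅ (by simp))
  obtain ⟨v, e1, rfl, hv⟩ := model_of hB n1 n2 n4
  have hl : ∀ u ∈ p.1, u ∈ range v.ns := fun u hu => hpN (Or.inl (Or.inl hu))
  have hlt : ∀ u ∈ p.1, u.wp.1 < v.wp.1 := fun u hu => (hv.1.1 u (hl u hu)).1
  have hch : D.Chain (insert v ↑p.1) := by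
    refine ⟨?_, ?_, ?_⟩
    · rintro u (rfl | hu)
      · exact hv
      · exact hp.1.1 u hu
    · rintro u (rfl | hu) w (rfl | hw) l
      · exact absurd l (lt_irrefl _)
      · exact absurd l (hlt w hw).not_gt
      · exact ⟨hl u hu, hB.ns (hl u hu)⟩
      · exact hp.1.2.1 u hu w hw l
    · rintro u (rfl | hu) w (rfl | hw) l
      · rfl
      · exact absurd l (hlt w hw).ne'
      · exact absurd l (hlt u hu).ne
      · exact hp.1.2.2 u hu w hw l
  have hpt : D.pts (insert v ↑p.1) = insert (D.c a) (insert b (D.pts ↑p.1)) := by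
    rw [Dat.pts, image_insert_eq, D.P_insert, e1]; rfl
  refine ⟨v, fun x hx => subset_union_left.trans (hN x hx), hB, by rw [e1]; exact haS, ?_, ?_, ?_, ?_⟩
  · simpa only [Finset.coe_insert] using hch
  · intro q hq u hu l
    rcases Finset.mem_insert.1 hu with rfl | hu
    · exact ⟨hpN (Or.inl (Or.inr ⟨q, hq, rfl⟩)), hpN (Or.inr ⟨q, hq, rfl⟩)⟩
    · exact hp.2.1 q hq u hu l
  · intro u hu
    simp only [Finset.coe_insert]
    rcases Finset.mem_insert.1 hu with rfl | hu'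
    · obtain ⟨_, h1, -⟩ := hL (fun _ => ∅) fun _ => countable_empty
      rw [hpt, e1]
      exact h1.2
    · refine up_inj hch (hp.1.1 u hu').lt.le (subset_insert _ _) ?_ ?_ (hp.2.2.1 u hu')
      · rintro w hw x (rfl | hx) hn
        · exact hlt w hw
        · exact absurd hx hn
      · rintro x (rfl | hx) hn
        · exact ⟨u, hl u hu', rfl⟩
        · exact absurd hx hn
  · simp only [Finset.coe_insert, hpt]
    exact hL.mono fun _ h => h.1

end Pool.Agent.P.MP_78ae2c_lc.MMx
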