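import Pool.Agent.P.MP_78ae2c_lc.MM2

/-! The poset preserves stationary sets. -/

namespace Pool.Agent.P.MP_78ae2c_lc.MMx

open Set

universe u

variable {W K C : Type u} [LinearOrder W] [LinearOrder K] [Nonempty W] [Nonempty K]

open Classical in
/-- fans of working parts -/
def Fan (G : Finset (W × K) → Prop) (k : ℕ) : Finset (W × K) → Prop :=
  Nat.rec G (fun _ G' t => ∀ a0, ∃ a, a0 < a ∧ ∀ b0, ∃ b, b0 < b ∧ G' (insert (a, b) t)) k

open Classical in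
theorem fan_bound (o : Ord2 W K) (G : Finset (W × K) → Prop) (k : ℕ) :
    ∃ Φ : Finset (W × K) → W × K, ∀ t a b, (Φ t).1 < a → (Φ t).2 < b →
      Fan G k (insert (a, b) t) → Fan G (k + 1) t := by
  have : ∀ t, ∃ m : W × K, ∀ a b, m.1 < a → m.2 < b →
      Fan G k (insert (a, b) t) → Fan G (k + 1) t := by
    intro t
    by_cases h : Fan G (k + 1) t
    · exact ⟨Classical.arbitrary _, fun _ _ _ _ _ => h⟩
    · have h' : ¬ ∀ a0, ∃ a, a0 < a ∧ ∀ b0, ∃ b, b0 < b ∧ Fan G k (insert (a, b) t) := h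
      push Not at h'
      obtain ⟨a0, h'⟩ := h'
      choose! g hg using h'
      obtain ⟨b1, hb1⟩ := o.k1 g
      exact ⟨(a0, b1), fun a b l1 l2 hf => absurd hf (hg a l1 b ((hb1 a).trans l2))⟩
  choose Φ hΦ using this
  exact ⟨Φ, hΦ⟩

open Classical in
theorem fan_wit (G : Finset (W × K) → Prop) (k : ℕ) (t : Finset (W × K)) :
    ∃ Y : Set (W × K), Y.Countable ∧ (Fan G (k + 1) t → ∃ X : Set W, X.Infinite ∧ ∀ a ∈ X,
      ∃ Z : Set K, Z.Infinite ∧ ∀ b ∈ Z, (a, b) ∈ Y ∧ Fan G k (insert (a, b) t)) := by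
  by_cases h : Fan G (k + 1) t
  · have h1 : {a | {b | Fan G k (insert (a, b) t)}.Infinite}.Infinite := by
      refine infinite_of_forall_exists_gt fun a0 => ?_
      obtain ⟨a, l, ha⟩ := h a0
      refine ⟨a, infinite_of_forall_exists_gt fun b0 => ?_, l⟩
      obtain ⟨b, l, hb⟩ := ha b0
      exact ⟨b, hb, l⟩
    obtain ⟨X, x1, x2, x3⟩ := sub_ctble h1
    choose! Z z1 z2 z3 using fun a (ha : a ∈ X) => sub_ctble (x1 ha)
    refine ⟨⋃ a ∈ X, {a} ×ˢ Z a, x2.biUnion fun a ha => (countable_singleton a).prod (z2 a ha),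
      fun _ => ⟨X, x3, fun a ha => ⟨Z a, z3 a ha, fun b hb =>
        ⟨mem_biUnion ha (mk_mem_prod rfl hb), z1 a ha hb⟩⟩⟩⟩
  · exact ⟨∅, countable_empty, fun h' => absurd h' h⟩

/-- the poset -/
def Po (D : Dat W K C) : Type u := {p // D.IsCond p}

instance instPo (D : Dat W K C) : Preorder (Po D) where
  le p q := q.1.1 ⊆ p.1.1 ∧ q.1.2 ⊆ p.1.2
  le_refl _ := ⟨Finset.Subset.refl _, Finset.Subset.refl _⟩
  le_trans _ _ _ h1 h2 := ⟨h2.1.trans h1.1, h2.2.trans h1.2⟩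

variable {D : Dat W K C}

open Classical in
/-- amalgamation of a condition with a condition inside a side condition -/
theorem amalg {r q : Po D} {v : U W K} (hv : v ∈ r.1.1) (hB : D.Basic (range v.ns))
    (h1 : ∀ u ∈ r.1.1, u.wp.1 < v.wp.1 → u ∈ q.1.1)
    (h2 : ∀ x ∈ r.1.2, x.1.wp.1 < v.wp.1 → x ∈ q.1.2)
    (h3 : ∀ u ∈ q.1.1, u ∈ range v.ns) (h4 : ∀ x ∈ q.1.2, x.1 ∈ range v.ns ∧ x.2 ∈ range v.ns)
    (h5 : ∀ u ∈ r.1.1, v.wp.1 ≤ u.wp.1 → Inj D.F u.wp.2 (D.pts ↑(r.1.1 ∪ q.1.1)))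
    (h6 : Large W {b | Inj D.F b (D.pts ↑(r.1.1 ∪ q.1.1))}) :
    D.IsCond (r.1.1 ∪ q.1.1, r.1.2 ∪ q.1.2) := by
  have hr := r.2
  have hq := q.2
  have mv := hr.1.1 v hv
  have lo : ∀ u ∈ q.1.1, u.wp.1 < v.wp.1 := fun u hu => (mv.1.1 u (h3 u hu)).1
  have cs : ∀ u ∈ r.1.1 ∪ q.1.1, u ∈ q.1.1 ∨ (u ∈ r.1.1 ∧ v.wp.1 ≤ u.wp.1) := by
    intro u hu
    rcases Finset.mem_union.1 hu with hu | hu
    · rcases lt_or_ge u.wp.1 v.wp.1 with l | l
      · exact Or.inl (h1 u hu l)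
      · exact Or.inr ⟨hu, l⟩
    · exact Or.inl hu
  have hch : D.Chain ↑(r.1.1 ∪ q.1.1) := by
    refine ⟨fun u hu => ?_, fun u hu w hw l => ?_, fun u hu w hw l => ?_⟩
    · rcases cs u hu with hu | ⟨hu, -⟩
      · exact hq.1.1 u hu
      · exact hr.1.1 u hu
    · rcases cs u hu with hu | ⟨hu, lu⟩ <;> rcases cs w hw with hw | ⟨hw, lw⟩
      · exact hq.1.2.1 u hu w hw l
      · exact ⟨hr.1.sub hv hw lw (h3 u hu), (hB.ns (h3 u hu)).trans (hr.1.sub hv hw lw)⟩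
      · exact absurd (l.trans (lo w hw)) lu.not_gt
      · exact hr.1.2.1 u hu w hw l
    · rcases cs u hu with hu | ⟨hu, lu⟩ <;> rcases cs w hw with hw | ⟨hw, lw⟩
      · exact hq.1.2.2 u hu w hw l
      · exact absurd l ((lo u hu).trans_le lw).ne
      · exact absurd l ((lo w hw).trans_le lu).ne'
      · exact hr.1.2.2 u hu w hw l
  refine ⟨hch, fun x hx u hu l => ?_, fun u hu => ?_, h6⟩
  · rcases cs u hu with hu | ⟨hu, lu⟩ <;> rcases Finset.mem_union.1 hx with hx | hx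
    · exact hq.2.1 x (h2 x hx (l.trans (lo u hu))) u hu l
    · exact hq.2.1 x hx u hu l
    · exact hr.2.1 x hx u hu l
    · exact ⟨hr.1.sub hv hu lu (h4 x hx).1, hr.1.sub hv hu lu (h4 x hx).2⟩
  · rcases cs u hu with hu' | ⟨hu', lu⟩
    · refine up_inj hch (hq.1.1 u hu').lt.le (A := ↑q.1.1)
        (Finset.coe_subset.2 Finset.subset_union_right) ?_ ?_ (hq.2.2.1 u hu')
      · intro w hw x hx hn
        exact (lo w hw).trans_le ((cs x hx).resolve_left hn).2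
      · intro x hx hn
        obtain ⟨a1, a2⟩ := (cs x hx).resolve_left hn
        exact ⟨u, hr.1.sub hv a1 a2 (h3 u hu'), rfl⟩
    · exact h5 u hu' lu

variable [WellFoundedLT W]

theorem ssp (ok : D.Ok) (S : Set W) (hS : Good S) (R : Po D → W → W → Prop)
    (hm : ∀ p q ξ η, q ≤ p → R p ξ η → R q ξ η) (hd : ∀ p ξ, ∃ q ≤ p, ∃ η, R q ξ η) (p : Po D) :
    ∃ q ≤ p, ∃ δ ∈ S, ∀ ξ < δ, ∀ r ≤ q, ∃ s ≤ r, ∃ η < δ, R s ξ η := by
  classical
  let G : Finset (U W K) → Finset (U W K × U W K) → W → Finset (W × K) → Prop := fun ra da ξ t =>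
    ∃ q : Po D, ∃ η, ra ⊆ q.1.1 ∧ da ⊆ q.1.2 ∧ (∀ u ∈ q.1.1, u ∈ ra ∨ u.wp ∈ t) ∧ R q ξ η
  choose Φ hΦ using fun ra da ξ k => fan_bound ok.o (G ra da ξ) k
  choose Y hY1 hY2 using fun ra da ξ k t => fan_wit (G ra da ξ) k t
  have hw : ∀ ra da ξ t, ∃ q : Po D, ∃ η, G ra da ξ t →
      ra ⊆ q.1.1 ∧ da ⊆ q.1.2 ∧ (∀ u ∈ q.1.1, u ∈ ra ∨ u.wp ∈ t) ∧ R q ξ η := by
    intro ra da ξ t
    by_cases h : G ra da ξ t
    · obtain ⟨q, η, h⟩ := h
      exact ⟨q, η, fun _ => h⟩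
    · exact ⟨p, ξ, fun h' => absurd h' h⟩
  choose wq wη hw using hw
  let H : Ix (U W K) → Set (U W K) := fun x =>
    insert (U.mk x.2.2.1.wp.1 D.δ (Φ x.1 x.2.1 x.2.2.1.wp.1 x.2.2.2.1) fun _ => .nil)
      (insert (U.el (wη x.1 x.2.1 x.2.2.1.wp.1 (x.2.2.2.2.image U.wp), D.δ))
        (U.el '' Y x.1 x.2.1 x.2.2.1.wp.1 x.2.2.2.1 (x.2.2.2.2.image U.wp) ∪
          (↑(wq x.1 x.2.1 x.2.2.1.wp.1 (x.2.2.2.2.image U.wp)).1.1 ∪
            (Prod.fst '' ((wq x.1 x.2.1 x.2.2.1.wp.1 (x.2.2.2.2.image U.wp)).1.2 : Set (U W K × U W K)) ∪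
              Prod.snd '' ((wq x.1 x.2.1 x.2.2.1.wp.1 (x.2.2.2.2.image U.wp)).1.2 :
                Set (U W K × U W K))))))
  obtain ⟨v, hH, hB, hvS, hv⟩ := add_top ok p.2 H (fun x =>
    ((((hY1 _ _ _ _ _).image _).union ((Finset.countable_toSet _).union
      (((Finset.countable_toSet _).image _).union
        ((Finset.countable_toSet _).image _)))).insert _).insert _) hS
  refine ⟨⟨_, hv⟩, ⟨Finset.subset_insert _ _, Finset.Subset.refl _⟩, _, hvS, fun ξ hξ r0 hr0 => ?_⟩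
  obtain ⟨r, hrr, η0, hR⟩ := hd r0 ξ
  have hvr : v ∈ r.1.1 := hrr.1 (hr0.1 (Finset.mem_insert_self _ _))
  have hr := r.2
  have mv := hr.1.1 v hvr
  obtain ⟨z, hz, rfl⟩ := mv.1.2.1 ξ hξ
  let ra := r.1.1.filter fun u => u.wp.1 < v.wp.1
  let da := r.1.2.filter fun x => x.1.wp.1 < v.wp.1
  let Up := r.1.1.filter fun u => v.wp.1 ≤ u.wp.1
  have sp : ∀ (k : ℕ) (s : Finset (U W K)), ↑s ⊆ range v.ns →
      H (ra, da, z, k, s) ⊆ range v.ns := by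
    refine fun k s hs => hH _ ⟨fun u hu => ?_, fun x hx => ?_, hz, hs⟩
    · obtain ⟨a1, a2⟩ := Finset.mem_filter.1 hu
      exact (hr.1.2.1 u a1 v hvr a2).1
    · obtain ⟨a1, a2⟩ := Finset.mem_filter.1 hx
      exact hr.2.1 x a1 v hvr a2
  have down : ∀ V : Finset (U W K), V ⊆ Up → ∀ k, Fan (G ra da z.wp.1) k (V.image U.wp) →
      ∃ k', Fan (G ra da z.wp.1) k' ∅ := by
    intro V
    induction V using Finset.induction_on_max_value (fun u : U W K => u.wp.1) with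
    | empty => exact fun _ k h => ⟨k, by simpa using h⟩
    | insert u V hu hmax ih =>
      intro hV k h
      obtain ⟨a1, a2⟩ := Finset.mem_filter.1 (hV (Finset.mem_insert_self _ _))
      have hV' := (Finset.subset_insert _ _).trans hV
      obtain ⟨l1, l2⟩ := (hr.1.1 u a1).2.1 _
        (hr.1.sub hvr a1 a2 (sp k ∅ (by simp) (mem_insert _ _))) (V.image U.wp) (by
        rw [Finset.coe_image]
        refine image_mono fun w hw => ?_
        have b1 := (Finset.mem_filter.1 (hV' hw)).1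
        refine (hr.1.2.1 w b1 u a1 ((hmax w hw).lt_of_ne fun e => hu ?_)).1
        exact hr.1.2.2 w b1 u a1 e ▸ hw)
      refine ih hV' (k + 1) (hΦ _ _ _ k _ u.wp.1 u.wp.2 l1 l2 ?_)
      rw [Finset.image_insert] at h
      exact h
  obtain ⟨k0, hk0⟩ := down Up (Finset.Subset.refl _) 0 ⟨r, η0, Finset.filter_subset _ _,
    Finset.filter_subset _ _, fun u hu => (lt_or_ge u.wp.1 v.wp.1).imp
      (fun l => Finset.mem_filter.2 ⟨hu, l⟩)
      fun l => Finset.mem_image_of_mem _ (Finset.mem_filter.2 ⟨hu, l⟩), hR⟩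
  have up : ∀ B : Set K, B.Finite → ∀ (k : ℕ) (s : Finset (U W K)), ↑s ⊆ range v.ns →
      Fan (G ra da z.wp.1) k (s.image U.wp) → (∀ b ∈ B, Inj D.F b (D.pts (↑r.1.1 ∪ ↑s))) →
      ∃ s' : Finset (U W K), ↑s' ⊆ range v.ns ∧ G ra da z.wp.1 (s'.image U.wp) ∧
        ∀ b ∈ B, Inj D.F b (D.pts (↑r.1.1 ∪ ↑s')) := by
    intro B hBf k
    induction k with
    | zero => exact fun s h1 h2 h3 => ⟨s, h1, h2, h3⟩
    | succ k ih =>
      intro s h1 h2 h3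
      obtain ⟨X, x1, x2⟩ := hY2 _ _ _ k _ h2
      have hQ : (D.pts (↑r.1.1 ∪ ↑s)).Finite :=
        D.P_fin ok ((r.1.1.finite_toSet.union s.finite_toSet).image _)
      obtain ⟨_, ⟨a, ha, rfl⟩, h4⟩ := avoid ok.fin hBf hQ h3 (x1.image ok.inj.injOn)
      obtain ⟨Z, z1, z2⟩ := x2 a ha
      obtain ⟨b, hb, h5⟩ := avoid ok.fin hBf (hQ.insert _) h4 z1
      refine ih (insert (U.el (a, b)) s) ?_ ?_ fun b' hb' => (h5 b' hb').mono ?_
      · rw [Finset.coe_insert]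
        exact insert_subset (sp k s h1 (Or.inr (Or.inr (Or.inl ⟨_, (z2 b hb).1, rfl⟩)))) h1
      · rw [Finset.image_insert]
        exact (z2 b hb).2
      · rw [Finset.coe_insert, union_insert, Dat.pts, image_insert_eq, D.P_insert, insert_comm]
        rfl
  obtain ⟨s, ⟨s1, s2, s3⟩, hL⟩ := hr.2.2.2.split
    (I := {s : Finset (U W K) | ↑s ⊆ range v.ns ∧ G ra da z.wp.1 (s.image U.wp) ∧
      ∀ u ∈ Up, Inj D.F u.wp.2 (D.pts (↑r.1.1 ∪ ↑s))})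
    (Countable.mono (by exact fun _ h => h.1) (ctble_fin (countable_range v.ns)))
    (fun s => {b | Inj D.F b (D.pts (↑r.1.1 ∪ ↑s))}) (by
    intro b hb
    obtain ⟨s, s1, s2, s3⟩ := up (insert b ((fun u : U W K => u.wp.2) '' ↑Up))
      ((Up.finite_toSet.image _).insert b) k0 ∅ (by simp) (by simpa using hk0) (by
      rw [Finset.coe_empty, union_empty]
      rintro _ (rfl | ⟨u, hu, rfl⟩)
      · exact hb
      · exact hr.2.2.1 u (Finset.mem_filter.1 hu).1)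
    exact ⟨s, ⟨s1, s2, fun u hu => s3 _ (Or.inr ⟨u, hu, rfl⟩)⟩, s3 b (Or.inl rfl)⟩)
  obtain ⟨q1, q2, q3, q4⟩ := hw _ _ _ _ s2
  have hs := sp 0 s s1
  set q := wq ra da z.wp.1 (s.image U.wp)
  have hsub : D.pts ↑(r.1.1 ∪ q.1.1) ⊆ D.pts (↑r.1.1 ∪ ↑s) := by
    refine D.P_mono ?_
    rintro _ ⟨u, hu, rfl⟩
    rcases Finset.mem_union.1 hu with hu | hu
    · exact ⟨u, Or.inl hu, rfl⟩
    · rcases q3 u hu with h | h
      · exact ⟨u, Or.inl (Finset.mem_filter.1 h).1, rfl⟩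
      · obtain ⟨w, hw, e⟩ := Finset.mem_image.1 h
        exact ⟨w, Or.inr hw, e⟩
  have hc := amalg (q := q) hvr hB (fun u hu l => q1 (Finset.mem_filter.2 ⟨hu, l⟩))
    (fun x hx l => q2 (Finset.mem_filter.2 ⟨hx, l⟩))
    (fun u hu => hs (Or.inr (Or.inr (Or.inr (Or.inl hu)))))
    (fun x hx => ⟨hs (Or.inr (Or.inr (Or.inr (Or.inr (Or.inl ⟨x, hx, rfl⟩))))),
      hs (Or.inr (Or.inr (Or.inr (Or.inr (Or.inr ⟨x, hx, rfl⟩)))))⟩)
    (fun u hu l => (s3 u (Finset.mem_filter.2 ⟨hu, l⟩)).mono hsub)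
    (hL.mono fun b hb => Inj.mono hb hsub)
  refine ⟨⟨_, hc⟩, le_trans ⟨?_, ?_⟩ hrr, _, (mv.1.1 _ (hs (Or.inr (Or.inl rfl)))).1,
    hm q _ _ _ ⟨?_, ?_⟩ q4⟩
  · exact fun u hu => by simp [hu]
  · exact fun u hu => by simp [hu]
  · exact fun u hu => by simp [hu]
  · exact fun u hu => by simp [hu]

end Pool.Agent.P.MP_78ae2c_lc.MMx
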