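import Pool.Agent.P.MP_78ae2c_lc.MM3

/-! The generic chain. -/

namespace Pool.Agent.P.MP_78ae2c_lc.MMx

open Set

universe u

/-- the forcing principle in the form used -/
def FA (W : Type u) [LinearOrder W] : Prop :=
  ∀ (P : Type u) [Preorder P] [Nonempty P],
    (∀ S : Set W, Good S → ∀ R : P → W → W → Prop, (∀ p q ξ η, q ≤ p → R p ξ η → R q ξ η) →
      (∀ p ξ, ∃ q ≤ p, ∃ η, R q ξ η) →
      ∀ p, ∃ q ≤ p, ∃ δ ∈ S, ∀ ξ < δ, ∀ r ≤ q, ∃ s ≤ r, ∃ η < δ, R s ξ η) →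
    ∀ E : W × ℕ → Set P, (∀ i p, ∃ q ≤ p, q ∈ E i) →
      ∃ G : Set P, (∀ p ∈ G, ∀ q ∈ G, ∃ r ∈ G, r ≤ p ∧ r ≤ q) ∧ ∀ i, ∃ p ∈ G, p ∈ E i

/-- closed below its supremum -/
def Cld {X : Type u} [LinearOrder X] (A : Set X) : Prop :=
  ∀ γ, (∃ u ∈ A, γ ≤ u) → (∃ u ∈ A, u < γ) → (∀ x < γ, ∃ u ∈ A, x < u ∧ u < γ) → γ ∈ A

variable {W K C : Type u} [LinearOrder W] [LinearOrder K] [Nonempty W] [Nonempty K]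
  [WellFoundedLT W] {D : Dat W K C}

theorem dense (ok : D.Ok) (ξ : W) (n : ℕ) (p : Po D) : ∃ q ≤ p, (∃ v ∈ q.1.1, ξ < v.wp.1) ∧
    ((∃ v ∈ q.1.1, v.wp.1 = ξ ∧ ∃ z, (z, v.ns n) ∈ q.1.2 ∧ (z ∈ q.1.1 ∨ ∀ a, z.wp.1 ≤ a) ∧
      z.wp.1 < ξ) ∨ ∀ r ≤ q, ∀ v ∈ r.1.1, v.wp.1 ≠ ξ) := by
  classical
  have top : ∀ p : Po D, ∃ q ≤ p, ∃ v ∈ q.1.1, ξ < v.wp.1 := by
    intro p
    obtain ⟨v, -, -, h1, h2⟩ := add_top ok p.2 (fun _ => ∅) (fun _ => countable_empty)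
      (good_Ioi ok.o.w1 ok.o.w2 ξ)
    exact ⟨⟨_, h2⟩, ⟨Finset.subset_insert _ _, Finset.Subset.refl _⟩, v,
      Finset.mem_insert_self _ _, h1⟩
  by_cases h : ∀ r ≤ p, ∀ v ∈ r.1.1, v.wp.1 ≠ ξ
  · obtain ⟨q, hq, hv⟩ := top p
    exact ⟨q, hq, hv, Or.inr fun r hr => h r (hr.trans hq)⟩
  push Not at h
  obtain ⟨r, hr, v, hv, rfl⟩ := h
  have mv := r.2.1.1 v hv
  obtain ⟨z, z1, z2, z3⟩ : ∃ z ∈ range v.ns, (z ∈ r.1.1 ∨ ∀ a, z.wp.1 ≤ a) ∧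
      ∀ u ∈ r.1.1, z.wp.1 < u.wp.1 → v.wp.1 ≤ u.wp.1 := by
    rcases (r.1.1.filter fun u => u.wp.1 < v.wp.1).eq_empty_or_nonempty with h | h
    · have hm := wellFounded_lt.min_mem (univ : Set W) univ_nonempty
      have hl : ∀ a, wellFounded_lt.min (univ : Set W) univ_nonempty ≤ a := fun a =>
        not_lt.1 (wellFounded_lt.not_lt_min _ (mem_univ a))
      obtain ⟨z, hz, e⟩ := mv.1.2.1 _ ((hl _).trans_lt (mv.1.1 _ ⟨0, rfl⟩).1)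
      refine ⟨z, hz, Or.inr (e ▸ hl), fun u hu _ => not_lt.1 fun l => ?_⟩
      exact Finset.notMem_empty u (h ▸ Finset.mem_filter.2 ⟨hu, l⟩)
    · obtain ⟨z, hz, hm⟩ := Finset.exists_max_image _ (fun u : U W K => u.wp.1) h
      obtain ⟨a1, a2⟩ := Finset.mem_filter.1 hz
      exact ⟨z, (r.2.1.2.1 z a1 v hv a2).1, Or.inl a1, fun u hu l => not_lt.1 fun l' =>
        absurd l (hm u (Finset.mem_filter.2 ⟨hu, l'⟩)).not_gt⟩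
  have hc : D.IsCond (r.1.1, insert (z, v.ns n) r.1.2) := by
    refine ⟨r.2.1, fun x hx u hu l => ?_, r.2.2.2⟩
    rcases Finset.mem_insert.1 hx with rfl | hx
    · have := r.2.1.sub hv hu (z3 u hu l)
      exact ⟨this z1, this ⟨n, rfl⟩⟩
    · exact r.2.2.1 x hx u hu l
  obtain ⟨q, hq, hw⟩ := top ⟨_, hc⟩
  exact ⟨q, hq.trans ⟨hr.1, hr.2.trans (Finset.subset_insert _ _)⟩, hw,
    Or.inl ⟨v, hq.1 hv, rfl, z, hq.2 (Finset.mem_insert_self _ _), z2.imp_left fun h => hq.1 h,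
      (mv.1.1 z z1).1⟩⟩

theorem chain (ok : D.Ok) (fa : FA W) (hQ : Large W {b | Inj D.F b D.Q}) :
    ∃ Z : Set (U W K), D.Chain Z ∧ (∀ ζ, ∃ v ∈ Z, ζ < v.wp.1) ∧
      (∀ v ∈ Z, Inj D.F v.wp.2 (D.pts Z)) ∧
      ∀ v ∈ Z, (∃ u ∈ Z, u.wp.1 < v.wp.1) →
        (∀ u ∈ Z, u.wp.1 < v.wp.1 → ∃ u' ∈ Z, u.wp.1 < u'.wp.1 ∧ u'.wp.1 < v.wp.1) →
        ∀ w ∈ range v.ns, ∃ u ∈ Z, u.wp.1 < v.wp.1 ∧ w ∈ range u.ns := by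
  have : Nonempty (Po D) := ⟨⟨(∅, ∅), by simp [Dat.Chain], by simp, by simp,
    by simpa [Dat.pts, Dat.pp] using hQ⟩⟩
  obtain ⟨G, hG, hE⟩ := fa (Po D) (ssp ok) _ fun i p => dense ok i.1 i.2 p
  have mem : ∀ v, v ∈ ⋃ p ∈ G, (↑p.1.1 : Set (U W K)) ↔ ∃ p ∈ G, v ∈ p.1.1 := by simp
  have two : ∀ u ∈ ⋃ p ∈ G, (↑p.1.1 : Set (U W K)), ∀ q ∈ G, ∃ r ∈ G, r ≤ q ∧ u ∈ r.1.1 := by
    intro u hu q hq
    obtain ⟨p, hp, hu⟩ := (mem u).1 hu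
    obtain ⟨r, hr, l1, l2⟩ := hG p hp q hq
    exact ⟨r, hr, l2, l1.1 hu⟩
  have both : ∀ u ∈ ⋃ p ∈ G, (↑p.1.1 : Set (U W K)), ∀ v ∈ ⋃ p ∈ G, (↑p.1.1 : Set (U W K)),
      ∃ r ∈ G, u ∈ r.1.1 ∧ v ∈ r.1.1 := by
    intro u hu v hv
    obtain ⟨p, hp, hv⟩ := (mem v).1 hv
    obtain ⟨r, hr, l, hu⟩ := two u hu p hp
    exact ⟨r, hr, hu, l.1 hv⟩
  have pt : ∀ x ∈ D.pts (⋃ p ∈ G, (↑p.1.1 : Set (U W K))), ∀ q ∈ G,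
      ∃ r ∈ G, r ≤ q ∧ x ∈ D.pts ↑r.1.1 := by
    intro x hx q hq
    rcases D.mem_pts.1 hx with hx | ⟨u, hu, hx⟩ | ⟨u, hu, hx⟩
    · exact ⟨q, hq, le_refl _, D.mem_pts.2 (Or.inl hx)⟩
    · obtain ⟨r, hr, l, hu⟩ := two u hu q hq
      exact ⟨r, hr, l, D.mem_pts.2 (Or.inr (Or.inl ⟨u, hu, hx⟩))⟩
    · obtain ⟨r, hr, l, hu⟩ := two u hu q hq
      exact ⟨r, hr, l, D.mem_pts.2 (Or.inr (Or.inr ⟨u, hu, hx⟩))⟩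
  refine ⟨⋃ p ∈ G, ↑p.1.1, ⟨fun v hv => ?_, fun u hu v hv => ?_, fun u hu v hv => ?_⟩,
    fun ζ => ?_, fun v hv x hx y hy => ?_, ?_⟩
  · obtain ⟨p, -, hv⟩ := (mem v).1 hv
    exact p.2.1.1 v hv
  · obtain ⟨r, -, hu, hv⟩ := both u hu v hv
    exact r.2.1.2.1 u hu v hv
  · obtain ⟨r, -, hu, hv⟩ := both u hu v hv
    exact r.2.1.2.2 u hu v hv
  · obtain ⟨p, hp, ⟨v, hv, l⟩, -⟩ := hE (ζ, 0)
    exact ⟨v, (mem v).2 ⟨p, hp, hv⟩, l⟩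
  · obtain ⟨p, hp, hv⟩ := (mem v).1 hv
    obtain ⟨q, hq, l1, hx⟩ := pt x hx p hp
    obtain ⟨r, hr, l2, hy⟩ := pt y hy q hq
    exact r.2.2.2.1 v (l2.1 (l1.1 hv)) x (D.pts_mono (Finset.coe_subset.2 l2.1) hx) y hy
  · rintro v hv ⟨u0, hu0, l0⟩ hlim _ ⟨n, rfl⟩
    obtain ⟨p, hp, -, h⟩ := hE (v.wp.1, n)
    obtain ⟨q, hq, l1, hvq⟩ := two v hv p hp
    obtain ⟨v', hv', e, z, z1, z2, z3⟩ := h.resolve_right fun h => h q l1 v hvq rfl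
    obtain rfl := q.2.1.2.2 v' (l1.1 hv') v hvq e
    obtain ⟨u, hu, l2, l3⟩ : ∃ u ∈ ⋃ p ∈ G, (↑p.1.1 : Set (U W K)),
        z.wp.1 < u.wp.1 ∧ u.wp.1 < v'.wp.1 := by
      rcases z2 with z2 | z2
      · exact hlim z ((mem z).2 ⟨p, hp, z2⟩) z3
      · obtain ⟨u, hu, l2, l3⟩ := hlim u0 hu0 l0
        exact ⟨u, hu, (z2 _).trans_lt l2, l3⟩
    obtain ⟨r, hr, l4, hur⟩ := two u hu p hp
    exact ⟨u, hu, l3, (r.2.2.1 _ (l4.2 z1) u hur l2).2⟩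

theorem forcing (ok : D.Ok) (fa : FA W) (hQ : Large W {b | Inj D.F b D.Q}) :
    ∃ (E : Set W) (A : Set K), (∀ ζ, ∃ a ∈ E, ζ < a) ∧ Cld E ∧ Cld A ∧ ¬ A.Countable ∧
      (∀ b ∈ A, (A ∩ Iio b).Countable ∧ D.δ < b ∧ Inj D.F b (D.Q ∪ D.c '' E ∪ A)) ∧
      (Inj D.F D.δ D.Q → Inj D.F D.δ (D.Q ∪ D.c '' E)) := by
  obtain ⟨Z, hZ, h1, h2, h3⟩ := chain ok fa hQ
  have hp : D.pts Z = D.Q ∪ D.c '' ((fun u : U W K => u.wp.1) '' Z) ∪ (fun u => u.wp.2) '' Z := by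
    simp only [Dat.pts, Dat.pp, image_image]
  have mono : ∀ u ∈ Z, ∀ v ∈ Z, u.wp.1 < v.wp.1 → u.wp.2 < v.wp.2 := fun u hu v hv l =>
    ((hZ.1 v hv).1.1 u (hZ.2.1 u hu v hv l).1).2
  have mono' : ∀ u ∈ Z, ∀ v ∈ Z, u.wp.2 < v.wp.2 → u.wp.1 < v.wp.1 := by
    intro u hu v hv l
    rcases lt_trichotomy u.wp.1 v.wp.1 with h | h | h
    · exact h
    · exact absurd l (hZ.2.2 u hu v hv h ▸ lt_irrefl _)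
    · exact absurd l (mono v hv u hu h).not_gt
  have least : ∀ s : Set (U W K), s.Nonempty → ∃ v ∈ s, ∀ u, u.wp.1 < v.wp.1 → u ∉ s := by
    intro s hs
    exact (InvImage.wf (fun u : U W K => u.wp.1) wellFounded_lt).has_min s hs |>.imp
      fun v hv => ⟨hv.1, fun u l hu => hv.2 u hu l⟩
  refine ⟨(fun u : U W K => u.wp.1) '' Z, (fun u => u.wp.2) '' Z, fun ζ => ?_, ?_, ?_, ?_, ?_, ?_⟩
  · obtain ⟨v, hv, l⟩ := h1 ζ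
    exact ⟨_, ⟨v, hv, rfl⟩, l⟩
  · rintro a ⟨_, ⟨v0, hv0, rfl⟩, l0⟩ ⟨_, ⟨u0, hu0, rfl⟩, l1⟩ hl
    obtain ⟨v, ⟨hv, lv⟩, hm⟩ := least {v ∈ Z | a ≤ v.wp.1} ⟨v0, hv0, l0⟩
    have lo : ∀ u ∈ Z, u.wp.1 < v.wp.1 → u.wp.1 < a := fun u hu l =>
      not_le.1 fun h => hm u l ⟨hu, h⟩
    refine ⟨v, hv, le_antisymm (not_lt.1 fun l => ?_) lv⟩
    obtain ⟨w, hw, e⟩ := (hZ.1 v hv).1.2.1 a l
    obtain ⟨u, hu, l2, hwu⟩ := h3 v hv ⟨u0, hu0, l1.trans_le lv⟩ (fun u hu l2 => by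
      obtain ⟨_, ⟨u', hu', rfl⟩, l3, l4⟩ := hl _ (lo u hu l2)
      exact ⟨u', hu', l3, l4.trans_le lv⟩) w hw
    exact absurd (e ▸ ((hZ.1 u hu).1.1 w hwu).1) (lo u hu l2).not_gt
  · rintro a ⟨_, ⟨v0, hv0, rfl⟩, l0⟩ ⟨_, ⟨u0, hu0, rfl⟩, l1⟩ hl
    obtain ⟨v, ⟨hv, lv⟩, hm⟩ := least {v ∈ Z | a ≤ v.wp.2} ⟨v0, hv0, l0⟩
    have lo : ∀ u ∈ Z, u.wp.1 < v.wp.1 → u.wp.2 < a := fun u hu l =>
      not_le.1 fun h => hm u l ⟨hu, h⟩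
    refine ⟨v, hv, le_antisymm (not_lt.1 fun l => ?_) lv⟩
    obtain ⟨w, hw, e⟩ := (hZ.1 v hv).1.2.2 a l
    obtain ⟨u, hu, l2, hwu⟩ := h3 v hv ⟨u0, hu0, mono' _ hu0 _ hv (l1.trans_le lv)⟩
      (fun u hu l2 => by
      obtain ⟨_, ⟨u', hu', rfl⟩, l3, l4⟩ := hl _ (lo u hu l2)
      exact ⟨u', hu', mono' _ hu _ hu' l3, mono' _ hu' _ hv (l4.trans_le lv)⟩) w hw
    exact absurd (e.trans_lt ((hZ.1 u hu).1.1 w hwu).2) (lo u hu l2).not_gt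
  · intro hc
    have hZc : Z.Countable := by
      refine countable_of_injective_of_countable_image (fun u hu v hv e => ?_) hc
      rcases lt_trichotomy u.wp.1 v.wp.1 with h | h | h
      · exact absurd e (mono u hu v hv h).ne
      · exact hZ.2.2 u hu v hv h
      · exact absurd e (mono v hv u hu h).ne'
    obtain ⟨b, hb⟩ := ok.o.w1 _ (hZc.image fun u => u.wp.1)
    obtain ⟨v, hv, l⟩ := h1 b
    exact absurd l (hb _ ⟨v, hv, rfl⟩).not_gt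
  · rintro _ ⟨v, hv, rfl⟩
    refine ⟨((countable_range v.ns).image fun u => u.wp.2).mono ?_, (hZ.1 v hv).lt, hp ▸ h2 v hv⟩
    rintro _ ⟨⟨u, hu, rfl⟩, l⟩
    exact ⟨u, (hZ.2.1 u hu v hv (mono' u hu v hv l)).1, rfl⟩
  · intro h
    refine (up_inj (A := ∅) hZ le_rfl (empty_subset _) (by simp)
      (fun v hv _ => (hZ.1 v hv).2.2.2) (by simpa [Dat.pts, Dat.pp] using h)).mono ?_
    rw [hp]
    exact subset_union_left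

end Pool.Agent.P.MP_78ae2c_lc.MMx
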