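import Pool.Agent.P.MP_78ae2c_lc.MM4

/-! Two applications of the forcing lemma. -/

namespace Pool.Agent.P.MP_78ae2c_lc.MMx

open Set

universe u

theorem iso_of {X Y : Type u} [LinearOrder X] [LinearOrder Y] [WellFoundedLT X] [WellFoundedLT Y]
    (hX : Uncountable X) (hY : Uncountable Y) (h1 : ∀ x : X, (Iio x).Countable)
    (h2 : ∀ y : Y, (Iio y).Countable) : Nonempty (X ≃o Y) := by
  have key : ∀ {X Y : Type u} [LinearOrder X] [LinearOrder Y] [WellFoundedLT X] [WellFoundedLT Y],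
      Uncountable X → (∀ y : Y, (Iio y).Countable) → (X ≤i Y) → Nonempty (X ≃o Y) := by
    intro X Y _ _ _ _ hX h2 f
    rcases f.principalSumRelIso with g | g
    · have : Countable (Iio g.top) := (h2 _).to_subtype
      exact absurd (Function.Injective.countable (f := fun x : X => (⟨g x, g.lt_top x⟩ : Iio g.top))
        fun a b e => g.toRelEmbedding.injective (congrArg Subtype.val e)) not_countable
    · exact ⟨OrderIso.ofRelIsoLT g⟩
  rcases InitialSeg.total ((· < ·) : X → X → Prop) ((· < ·) : Y → Y → Prop) with f | f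
  · exact key hX h2 f
  · exact (key hY h1 f).map OrderIso.symm

variable {W K C : Type u} [LinearOrder W] [LinearOrder K] [Nonempty W] [Nonempty K]
  [WellFoundedLT W] [WellFoundedLT K]

omit [Nonempty W] [Nonempty K] in
theorem enum (o : Ord2 W K) {A : Set K} (h1 : ¬ A.Countable)
    (h2 : ∀ b ∈ A, (A ∩ Iio b).Countable) : ∃ e : W → K, StrictMono e ∧ range e = A := by
  have hW : Uncountable W := ⟨fun h => by
    obtain ⟨b, hb⟩ := o.w1 univ countable_univ
    exact lt_irrefl b (hb b (mem_univ b))⟩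
  obtain ⟨e⟩ := iso_of hW (Y := A) ⟨fun h => h1 (countable_coe_iff.1 h)⟩
    (fun x => (o.w2 x).mono Iio_subset_Iic_self)
    fun y => ((h2 y y.2).preimage Subtype.val_injective).mono fun x hx => And.intro x.2 hx
  refine ⟨fun i => e i, (Subtype.strictMono_coe _).comp e.strictMono, ?_⟩
  ext x
  exact ⟨by rintro ⟨i, rfl⟩; exact (e i).2, fun hx => ⟨e.symm ⟨x, hx⟩, by simp⟩⟩

theorem first (o : Ord2 W K) (fa : FA W) {F : K → K → C}
    (hF : ∀ b col, {y | y < b ∧ F y b = col}.Finite) (z : K) {c0 : W → K}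
    (hc0 : Function.Injective c0) (γ : K) :
    ∃ σ, (∃ c : W → K, StrictMono c ∧ Cld (range c) ∧ (∀ a, c a < σ) ∧ (∀ x < σ, ∃ a, x ≤ c a) ∧
      ∀ a, Inj F (c a) (insert z (range c))) ∧ γ < σ := by
  obtain ⟨δ, hδ⟩ := o.k1 c0
  obtain ⟨E, A, -, -, h1, h2, h3, -⟩ := forcing (D := ⟨F, c0, max δ γ, {z}⟩)
    ⟨o, hF, hc0, fun a => (hδ a).trans_le (le_max_left _ _), finite_singleton z⟩ fa
    ((large_univ o).mono fun b _ x hx y hy _ _ _ => hx.trans hy.symm)
  obtain ⟨c, hc, rfl⟩ := enum o h2 fun b hb => (h3 b hb).1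
  have hV : {s | ∀ a, c a < s}.Nonempty := o.k1 c
  have hm := wellFounded_lt.min_mem _ hV
  refine ⟨wellFounded_lt.min _ hV, ⟨c, hc, h1, hm, fun x hx => ?_, fun a =>
    (h3 _ ⟨a, rfl⟩).2.2.mono ?_⟩, ?_⟩
  · by_contra hn
    push Not at hn
    exact wellFounded_lt.not_lt_min {s | ∀ a, c a < s} hn hx
  · rintro x (rfl | hx)
    · exact Or.inl (Or.inl rfl)
    · exact Or.inr hx
  · exact (le_max_right _ _).trans_lt
      ((h3 _ ⟨Classical.arbitrary W, rfl⟩).2.1.trans (hm _))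

theorem main_abs (o : Ord2 W K) (fa : FA W) {F : K → K → C}
    (hF : ∀ b col, {y | y < b ∧ F y b = col}.Finite) {z : K} (hz : ∀ y, z ≤ y) {c0 : W → K}
    (hc0 : Function.Injective c0) :
    ∃ e0 e1 : W → K, StrictMono e0 ∧ StrictMono e1 ∧ (∀ i j, e0 i < e1 j) ∧ z ∈ range e0 ∧
      Cld (range e0 ∪ range e1) ∧ ∀ b ∈ range e0 ∪ range e1, Inj F b (range e0 ∪ range e1) := by
  obtain ⟨T, t1, t2, t3⟩ := sub_ctble (infinite_of_forall_exists_gt (first o fa hF z hc0))
  obtain ⟨σ, hσ, hL⟩ := (large_univ o).split t2 (fun σ => {b | Inj F b {σ, z}}) fun b _ => by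
    obtain ⟨x, hx, h⟩ := avoid hF (finite_singleton b) (finite_singleton z)
      (fun b _ x hx y hy _ _ _ => hx.trans hy.symm) t3
    exact ⟨x, hx, h b rfl⟩
  obtain ⟨c, c1, c2, c3, c4, c5⟩ := t1 hσ
  obtain ⟨E, A, e1, e2, h1, h2, h3, h4⟩ := forcing (D := ⟨F, c, σ, {σ, z}⟩)
    ⟨o, hF, c1.injective, c3, toFinite _⟩ fa hL
  have h5 : Inj F σ ({σ, z} ∪ c '' E) := h4 (by
    rintro x (rfl | rfl) y (rfl | rfl) l1 l2 _
    · rfl
    · exact absurd l1 (lt_irrefl _)
    · exact absurd l2 (lt_irrefl _)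
    · rfl)
  have hz' : z < σ := (hz _).trans_lt (c3 (Classical.arbitrary W))
  have lo : ∀ x ∈ insert z (c '' E), x < σ := by
    rintro x (rfl | ⟨a, -, rfl⟩)
    · exact hz'
    · exact c3 a
  have hi : ∀ x ∈ insert σ A, σ ≤ x := by
    rintro x (rfl | hx)
    · exact le_rfl
    · exact (h3 x hx).2.1.le
  obtain ⟨e0, m0, r0⟩ := enum o (A := insert z (c '' E)) (fun hc => by
    obtain ⟨b, hb⟩ := o.w1 E (countable_of_injective_of_countable_image c1.injective.injOn
      (hc.mono (subset_insert _ _)))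
    obtain ⟨a, ha, l⟩ := e1 b
    exact absurd l (hb a ha).not_gt) (by
    rintro _ (rfl | ⟨a, -, rfl⟩)
    · exact countable_empty.mono fun x hx => absurd hx.2 (hz x).not_gt
    · refine (((o.w2 a).image c).insert z).mono ?_
      rintro x ⟨rfl | ⟨a', -, rfl⟩, l⟩
      · exact Or.inl rfl
      · exact Or.inr ⟨a', (c1.lt_iff_lt.1 l).le, rfl⟩)
  obtain ⟨e1', m1, r1⟩ := enum o (A := insert σ A) (fun hc => h2 (hc.mono (subset_insert _ _))) (by
    rintro b (rfl | hb)
    · exact countable_empty.mono fun x hx => absurd hx.2 (hi x hx.1).not_gt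
    · refine ((h3 b hb).1.insert σ).mono ?_
      rintro x ⟨rfl | hx, l⟩
      · exact Or.inl rfl
      · exact Or.inr ⟨hx, l⟩)
  refine ⟨e0, e1', m0, m1, fun i j => (lo _ (r0 ▸ mem_range_self i)).trans_le
    (hi _ (r1 ▸ mem_range_self j)), r0 ▸ Or.inl rfl, ?_, ?_⟩
  · rw [r0, r1]
    rintro γ ⟨u, hu, l1⟩ ⟨u0, -, l0⟩ hl
    have hzγ : z < γ := (hz _).trans_lt l0
    rcases lt_trichotomy γ σ with l | rfl | l
    · have hl' : ∀ x < γ, ∃ a ∈ E, x < c a ∧ c a < γ := by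
        intro x hx
        obtain ⟨u, hu, l2, l3⟩ := hl x hx
        rcases hu with (rfl | ⟨a, ha, rfl⟩) | hu
        · exact absurd l2 (hz x).not_gt
        · exact ⟨a, ha, l2, l3⟩
        · exact absurd (l3.trans l) (hi u hu).not_gt
      obtain ⟨a0, ha0, -, l2⟩ := hl' z hzγ
      obtain ⟨a1, l3⟩ := c4 γ l
      obtain ⟨a, rfl⟩ := c2 γ ⟨_, ⟨a1, rfl⟩, l3⟩ ⟨_, ⟨a0, rfl⟩, l2⟩ fun x hx =>
        let ⟨a, _, h⟩ := hl' x hx
        ⟨_, ⟨a, rfl⟩, h⟩
      refine Or.inl (Or.inr ⟨a, e2 a ((e1 a).imp fun _ h => ⟨h.1, h.2.le⟩)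
        ⟨a0, ha0, c1.lt_iff_lt.1 l2⟩ fun x hx => ?_, rfl⟩)
      obtain ⟨a', ha', l4, l5⟩ := hl' _ (c1 hx)
      exact ⟨a', ha', c1.lt_iff_lt.1 l4, c1.lt_iff_lt.1 l5⟩
    · exact Or.inr (Or.inl rfl)
    · have up : ∀ u ∈ insert z (c '' E) ∪ insert σ A, σ < u → u ∈ A := by
        rintro u (hu | rfl | hu) l
        · exact absurd l (lo u hu).not_gt
        · exact absurd l (lt_irrefl _)
        · exact hu
      have hl' : ∀ x < γ, ∃ u ∈ A, x < u ∧ u < γ := by
        intro x hx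
        obtain ⟨u, hu, l2, l3⟩ := hl (max x σ) (max_lt hx l)
        exact ⟨u, up u hu ((le_max_right _ _).trans_lt l2), (le_max_left _ _).trans_lt l2, l3⟩
      exact Or.inr (Or.inr (h1 γ ⟨u, up u hu (l.trans_le l1), l1⟩
        ((hl' σ l).imp fun _ h => ⟨h.1, h.2.2⟩) hl'))
  · rw [r0, r1]
    rintro b ((rfl | ⟨a, ha, rfl⟩) | rfl | hb)
    · exact fun x _ _ _ l => absurd l (hz x).not_gt
    · intro x hx y hy l1 l2
      have s : ∀ x ∈ insert z (c '' E) ∪ insert σ A, x < c a → x ∈ insert z (range c) := by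
        rintro x (hx | hx) l
        · exact insert_subset_insert (image_subset_range _ _) hx
        · exact absurd (l.trans (c3 a)) (hi x hx).not_gt
      exact c5 a x (s x hx l1) y (s y hy l2) l1 l2
    · intro x hx y hy l1 l2
      have s : ∀ x ∈ insert z (c '' E) ∪ insert b A, x < b → x ∈ {b, z} ∪ c '' E := by
        rintro x ((rfl | hx) | hx) l
        · exact Or.inl (Or.inr rfl)
        · exact Or.inr hx
        · exact absurd l (hi x hx).not_gt
      exact h5 x (s x hx l1) y (s y hy l2) l1 l2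
    · refine (h3 b hb).2.2.mono ?_
      rintro x ((rfl | hx) | rfl | hx)
      · exact Or.inl (Or.inl (Or.inr rfl))
      · exact Or.inl (Or.inr hx)
      · exact Or.inl (Or.inl (Or.inl rfl))
      · exact Or.inr hx

end Pool.Agent.P.MP_78ae2c_lc.MMx
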