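import Pool.Agent.P.MP_78ae2c_lc.Defs

/-! Martin's Maximum, stated without names. -/

namespace Pool.Agent.P.MP_78ae2c_lc

open Ordinal

/-- The forcing `P` preserves stationary subsets of `ω_ 1`.  A relation `R p ξ η`, read as
`p` forces the value `η` at `ξ`, that passes to stronger conditions and is decided densely, is a
name for a function on `ω_ 1`; below any condition some `q` forces that a point `δ` of the
stationary set `S` is closed under that function. -/
def PreservesStat (P : Type 1) [Preorder P] : Prop :=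
  ∀ S : Set (Set.Iio (ω_ 1 : Ordinal.{0})), IsStationary S →
    ∀ R : P → Set.Iio (ω_ 1 : Ordinal.{0}) → Set.Iio (ω_ 1 : Ordinal.{0}) → Prop,
      (∀ p q ξ η, q ≤ p → R p ξ η → R q ξ η) → (∀ p ξ, ∃ q ≤ p, ∃ η, R q ξ η) →
      ∀ p, ∃ q ≤ p, ∃ δ ∈ S, ∀ ξ < δ, ∀ r ≤ q, ∃ s ≤ r, ∃ η < δ, R s ξ η

/-- Martin's Maximum: for a forcing that preserves stationary subsets of `ω_ 1`, any `ω_ 1`
dense sets are met by a filter. -/
def MartinsMaximum : Prop :=
  ∀ (P : Type 1) [Preorder P] [Nonempty P], PreservesStat P →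
    ∀ D : Set.Iio (ω_ 1 : Ordinal.{0}) → Set P, (∀ i p, ∃ q ≤ p, q ∈ D i) →
      ∃ G : Order.PFilter P, ∀ i, ∃ p ∈ G, p ∈ D i

end Pool.Agent.P.MP_78ae2c_lc
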