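import Pool.Agent.P.MP_78ae2c_lc.Match

/-! The colouring. -/

namespace Pool.Agent.P.MP_78ae2c_lc

open Set Ordinal Cardinal

/-- The first uncountable ordinal as a linear order. -/
abbrev W1 : Type 1 := Iio (ω_ 1 : Ordinal.{0})

theorem w1_bdd (s : Set W1) (hs : s.Countable) : ∃ b, ∀ x ∈ s, x < b := by
  have : Countable s := hs.to_subtype
  have h : (⨆ i : s, (i.1.1 : Ordinal.{0})) < ω_ 1 := Ordinal.iSup_lt_omega_one fun i => i.1.2
  have hl : Order.IsSuccLimit (ω_ 1 : Ordinal.{0}) := Cardinal.isSuccLimit_omega 1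
  refine ⟨⟨_, hl.succ_lt h⟩, fun x hx => ?_⟩
  have : (x.1 : Ordinal.{0}) ≤ ⨆ i : s, (i.1.1 : Ordinal.{0}) :=
    le_ciSup (f := fun i : s => (i.1.1 : Ordinal.{0}))
      ⟨ω_ 1, by rintro _ ⟨i, rfl⟩; exact le_of_lt i.1.2⟩ ⟨x, hx⟩
  exact Subtype.mk_lt_mk.2 (Order.lt_succ_of_le this)

theorem w1_ctble (x : W1) : (Iic x).Countable := by
  have hl : Order.IsSuccLimit (ω_ 1 : Ordinal.{0}) := Cardinal.isSuccLimit_omega 1
  have h : (Iio (Order.succ x.1)).Countable := by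
    rw [Cardinal.countable_iff_lt_aleph_one, Cardinal.mk_Iio_ordinal, Cardinal.lift_lt_aleph_one]
    exact Cardinal.lt_omega_iff_card_lt.1 (hl.succ_lt x.2)
  refine (h.preimage Subtype.val_injective).mono fun y hy => ?_
  exact Order.lt_succ_of_le (show y.1 ≤ x.1 from hy)

theorem mk_w1 : #W1 = ℵ₁ := by
  rw [Cardinal.mk_Iio_ordinal, Ordinal.card_omega, Cardinal.lift_aleph, Ordinal.lift_one]

theorem exists_assign (β : Ordinal.{0}) (hβ : β < ω_ 2) :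
    ∃ p : W1 → Ordinal.{0} × Ordinal.{0}, ∀ δ₀ ≤ β, ∀ δ₁ ≤ β, Good {η | p η = (δ₀, δ₁)} := by
  classical
  obtain ⟨I, φ, hI, hφ⟩ := ulam w1_bdd w1_ctble
  have hl : Order.IsSuccLimit (ω_ 2 : Ordinal.{0}) := Cardinal.isSuccLimit_omega 2
  have h1 : #(Iio (Order.succ β)) ≤ ℵ₁ := by
    rw [Cardinal.mk_Iio_ordinal, Cardinal.lift_le_aleph_one]
    have := Cardinal.lt_omega_iff_card_lt.1 (hl.succ_lt hβ)
    rw [← one_add_one_eq_two, Cardinal.aleph_add_one] at this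
    exact Order.lt_succ_iff.1 this
  have h2 : ℵ₁ ≤ #I := by
    rw [Cardinal.countable_iff_lt_aleph_one] at hI
    exact not_lt.1 hI
  have h3 : #(Iio (Order.succ β) × Iio (Order.succ β)) ≤ #I := by
    rw [Cardinal.mk_prod, Cardinal.lift_id]
    refine le_trans ?_ h2
    calc _ ≤ ℵ₁ * ℵ₁ := mul_le_mul' h1 h1
      _ = ℵ₁ := Cardinal.mul_eq_self (Cardinal.aleph0_le_aleph 1)
  obtain ⟨j⟩ := (Cardinal.le_def _ _).1 h3
  refine ⟨fun η => if h : ∃ q, (j q).1 = φ η then (h.choose.1.1, h.choose.2.1) else (0, 0), ?_⟩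
  intro δ₀ h₀ δ₁ h₁ g
  let q : Iio (Order.succ β) × Iio (Order.succ β) :=
    (⟨δ₀, Order.lt_succ_of_le h₀⟩, ⟨δ₁, Order.lt_succ_of_le h₁⟩)
  obtain ⟨η, hη, hcl⟩ := hφ (j q).1 (j q).2 g
  refine ⟨η, ?_, hcl⟩
  have hex : ∃ q, (j q).1 = φ η := ⟨q, hη.symm⟩
  have : hex.choose = q := j.injective (Subtype.ext (hex.choose_spec.trans hη))
  simp only [mem_ofPred_eq, dif_pos hex, this, q]

theorem exists_code : ∃ k : Ordinal.{0} → Ordinal.{0} → Ordinal.{0},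
    (∀ a b, k a b < ω_ 2) ∧
      ∀ a b a' b', a < ω_ 2 → b < ω_ 2 → a' < ω_ 2 → b' < ω_ 2 → k a b = k a' b' →
        a = a' ∧ b = b' := by
  classical
  have h : #(Iio (ω_ 2 : Ordinal.{0}) × Iio (ω_ 2 : Ordinal.{0})) ≤ #(Iio (ω_ 2 : Ordinal.{0})) := by
    rw [Cardinal.mk_prod, Cardinal.lift_id, Cardinal.mul_eq_self]
    rw [Cardinal.mk_Iio_ordinal, Ordinal.card_omega, Cardinal.lift_aleph]
    exact Cardinal.aleph0_le_aleph _
  obtain ⟨j⟩ := (Cardinal.le_def _ _).1 h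
  refine ⟨fun a b => if h : a < ω_ 2 ∧ b < ω_ 2 then (j (⟨a, h.1⟩, ⟨b, h.2⟩)).1 else 0, ?_, ?_⟩
  · intro a b
    beta_reduce
    split_ifs with h
    · exact (j _).2
    · exact Ordinal.omega_pos 2
  · intro a b a' b' ha hb ha' hb' e
    simp only [ha, hb, ha', hb', and_self, dif_pos] at e
    have := j.injective (Subtype.ext e)
    simpa using this

theorem lad_of_closed {A : Set Ordinal.{0}} {α : Ordinal.{0}} (E : Ordinal.{0} → Ordinal.{0})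
    (hE : StrictMonoOn E (Iio α)) (hA : A = E '' Iio α) (hb : BddAbove A)
    (hcl : ∀ γ < sSup A, γ ≠ 0 → sSup (A ∩ Iio γ) = γ → γ ∈ A)
    (μ ν : Ordinal.{0}) (hμ : μ + ω_ 1 ≤ ν) (hν : ν < α) :
    ∃ δ ≤ E ν, Lad δ (fun η : W1 => E (μ + η.1)) := by
  have hlt : ∀ η : W1, μ + η.1 < ν := fun η => (add_lt_add_right η.2 μ).trans_le hμ
  have hmono : StrictMono (fun η : W1 => E (μ + η.1)) := fun ξ η h =>
    hE ((hlt ξ).trans hν) ((hlt η).trans hν) (add_lt_add_right (show ξ.1 < η.1 from h) μ)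
  have hin : ∀ η : W1, E (μ + η.1) ∈ A := fun η => hA ▸ ⟨_, (hlt η).trans hν, rfl⟩
  have hU : E ν ∈ {γ | ∀ η : W1, E (μ + η.1) < γ} := fun η =>
    hE ((hlt η).trans hν) hν (hlt η)
  refine ⟨sInf {γ | ∀ η : W1, E (μ + η.1) < γ}, csInf_le' hU, hmono,
    csInf_mem (s := {γ | ∀ η : W1, E (μ + η.1) < γ}) ⟨_, hU⟩, ?_, ?_⟩
  · intro γ hγ
    have := notMem_of_lt_csInf' hγ
    simp only [mem_ofPred_eq, not_forall, not_lt] at this
    exact this
  · intro η h0 hlim γ hγ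
    by_contra hc
    push Not at hc
    set V : Set Ordinal.{0} := {γ | ∀ ξ : W1, ξ < η → E (μ + ξ.1) < γ} with hV
    have hγV : γ ∈ V := hc
    have h1 : sInf V ∈ V := csInf_mem ⟨_, hγV⟩
    have h2 : sInf V < E (μ + η.1) := (csInf_le' hγV).trans_lt hγ
    have h3 : sInf V ∈ A := by
      refine hcl _ (h2.trans_le (le_csSup hb (hin η))) ?_ ?_
      · obtain ⟨ξ, hξ⟩ := h0
        exact ne_of_gt (lt_of_le_of_lt zero_le (h1 ξ hξ))
      · apply le_antisymm (csSup_le' fun x hx => le_of_lt hx.2)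
        by_contra hlt'
        have := notMem_of_lt_csInf' (not_le.1 hlt')
        simp only [hV, mem_ofPred_eq, not_forall, not_lt] at this
        obtain ⟨ξ, hξ, h4⟩ := this
        obtain ⟨ζ, h5, h6⟩ := hlim ξ hξ
        have h7 : E (μ + ζ.1) ≤ sSup (A ∩ Iio (sInf V)) :=
          le_csSup (hb.mono inter_subset_left) ⟨hin ζ, h1 ζ h6⟩
        exact absurd (h7.trans h4) (not_le.2 (hmono h5))
    rw [hA] at h3
    obtain ⟨θ, hθ, e⟩ := h3
    obtain ⟨ξ, hξ⟩ := h0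
    have h4 : μ + ξ.1 < θ := by
      have := h1 ξ hξ
      rw [← e] at this
      exact (hE.lt_iff_lt ((hlt ξ).trans hν) hθ).1 this
    have h5 : θ < μ + η.1 := by
      rw [← e] at h2
      exact (hE.lt_iff_lt hθ ((hlt η).trans hν)).1 h2
    have h6 : μ ≤ θ := le_self_add.trans h4.le
    have h7 : θ = μ + (θ - μ) := (Ordinal.add_sub_cancel_of_le h6).symm
    have h8 : θ - μ < η.1 := by
      rw [h7] at h5
      exact lt_of_add_lt_add_left h5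
    have := h1 ⟨θ - μ, h8.trans η.2⟩ h8
    simp only at this
    rw [← h7, e] at this
    exact lt_irrefl _ this

/-- The colouring on ordered pairs. -/
theorem exists_colouring : ∃ F : Ordinal.{0} → Ordinal.{0} → Ordinal.{0},
    (∀ a b, F a b < ω_ 2) ∧
    (∀ a b a' b', a < b → b < ω_ 2 → a' < b' → b' < ω_ 2 → F a b = F a' b' → b = b') ∧
    (∀ ξ, ∃ u v, ∀ a b, a < b → b < ω_ 2 → F a b = ξ → a = u ∨ a = v) ∧
    ∀ α : Ordinal.{0}, ω_ 1 * 2 + 1 ≤ α → ∀ A : Set Ordinal.{0}, A ⊆ Iio (ω_ 2) →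
      (∀ γ < sSup A, γ ≠ 0 → sSup (A ∩ Iio γ) = γ → γ ∈ A) → Nonempty (Iio α ≃o A) →
      ∃ a ∈ A, ∃ a' ∈ A, ∃ b ∈ A, a < a' ∧ a' < b ∧ F a b = F a' b := by
  classical
  have hp : ∀ β : Ordinal.{0}, ∃ p : W1 → Ordinal.{0} × Ordinal.{0}, β < ω_ 2 →
      ∀ δ₀ ≤ β, ∀ δ₁ ≤ β, Good {η | p η = (δ₀, δ₁)} := by
    intro β
    by_cases h : β < ω_ 2
    · obtain ⟨p, hp⟩ := exists_assign β h
      exact ⟨p, fun _ => hp⟩
    · exact ⟨fun _ => (0, 0), fun h' => absurd h' h⟩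
  choose p hp using hp
  obtain ⟨k, hk, hki⟩ := exists_code
  let r : Ordinal.{0} → Ordinal.{0} → Ordinal.{0} := fun β γ =>
    rep β (fun η => lad W1 (p β η).1 η) (fun η => lad W1 (p β η).2 η) γ
  have hr : ∀ a b, a < b → r b a < b := fun a b h => rep_lt _ _ h
  refine ⟨fun a b => k b (r b a), fun a b => hk _ _, ?_, ?_, ?_⟩
  · intro a b a' b' h1 h2 h3 h4 e
    exact (hki _ _ _ _ h2 ((hr _ _ h1).trans h2) h4 ((hr _ _ h3).trans h4) e).1
  · intro ξ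
    by_cases h : ∃ a b, a < b ∧ b < ω_ 2 ∧ k b (r b a) = ξ
    · obtain ⟨a₀, b₀, h1, h2, e⟩ := h
      obtain ⟨v, hv⟩ := rep_fiber b₀ (fun η => lad W1 (p b₀ η).1 η) (fun η => lad W1 (p b₀ η).2 η)
        (r b₀ a₀)
      refine ⟨r b₀ a₀, v, fun a b h3 h4 e' => ?_⟩
      obtain ⟨e1, e2⟩ := hki _ _ _ _ h4 ((hr _ _ h3).trans h4) h2 ((hr _ _ h1).trans h2)
        (e'.trans e.symm)
      subst e1
      exact hv a e2
    · exact ⟨0, 0, fun a b h1 h2 e => absurd ⟨a, b, h1, h2, e⟩ h⟩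
  · rintro α hα A hA hcl ⟨e⟩
    let E : Ordinal.{0} → Ordinal.{0} := fun θ => if h : θ < α then (e ⟨θ, h⟩).1 else 0
    have hE : StrictMonoOn E (Iio α) := by
      intro θ hθ θ' hθ' h
      have hθ1 : θ < α := hθ
      have hθ2 : θ' < α := hθ'
      simp only [E, dif_pos hθ1, dif_pos hθ2]
      exact Subtype.coe_lt_coe.2 (e.strictMono (Subtype.mk_lt_mk.2 h))
    have hAE : A = E '' Iio α := by
      ext x
      constructor
      · intro hx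
        refine ⟨(e.symm ⟨x, hx⟩).1, (e.symm ⟨x, hx⟩).2, ?_⟩
        have : (e.symm ⟨x, hx⟩).1 < α := (e.symm ⟨x, hx⟩).2
        simp only [E, dif_pos this]
        rw [show (⟨(e.symm ⟨x, hx⟩).1, this⟩ : Iio α) = e.symm ⟨x, hx⟩ from rfl,
          e.apply_symm_apply]
      · rintro ⟨θ, hθ, rfl⟩
        have hθ1 : θ < α := hθ
        simp only [E, dif_pos hθ1]
        exact (e _).2
    have hb : BddAbove A := ⟨ω_ 2, fun x hx => le_of_lt (hA hx)⟩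
    have h2 : (ω_ 1 * 2 : Ordinal.{0}) = ω_ 1 + ω_ 1 := by
      rw [← one_add_one_eq_two, mul_add, mul_one]
    have hν : ω_ 1 * 2 < α := (lt_add_one _).trans_le hα
    obtain ⟨δ₀, h₀, l₀⟩ := lad_of_closed E hE hAE hb hcl 0 (ω_ 1 * 2)
      (by rw [h2, zero_add]; exact le_self_add) hν
    obtain ⟨δ₁, h₁, l₁⟩ := lad_of_closed E hE hAE hb hcl (ω_ 1) (ω_ 1 * 2) h2.ge hν
    have hβ : E (ω_ 1 * 2) ∈ A := hAE ▸ ⟨_, hν, rfl⟩
    obtain ⟨η, hη⟩ := exists_match w1_bdd (E (ω_ 1 * 2)) (p _) (hp _ (hA hβ)) h₀ h₁ l₀ l₁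
    have t1 : ω_ 1 + η.1 < ω_ 1 * 2 := by rw [h2]; exact add_lt_add_right η.2 _
    have t0 : 0 + η.1 < ω_ 1 + η.1 := by
      rw [zero_add]; exact lt_of_lt_of_le η.2 le_self_add
    refine ⟨E (0 + η.1), hAE ▸ ⟨_, (t0.trans t1).trans hν, rfl⟩, E (ω_ 1 + η.1),
      hAE ▸ ⟨_, t1.trans hν, rfl⟩, _, hβ, hE ((t0.trans t1).trans hν) (t1.trans hν) t0,
      hE (t1.trans hν) hν t1, ?_⟩
    simp only [r]
    rw [hη]

end Pool.Agent.P.MP_78ae2c_lc
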