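import Pool.Agent.P.MP_78ae2c_lc.MM5
import Pool.Agent.P.MP_78ae2c_lc.MMDefs
import Pool.Agent.P.MP_78ae2c_lc.Main

/-! The concrete ordinals. -/

namespace Pool.Agent.P.MP_78ae2c_lc.MMx

open Set Ordinal Cardinal

/-- The second uncountable ordinal as a linear order. -/
abbrev W2 : Type 1 := Iio (ω_ 2 : Ordinal.{0})

theorem w2_bdd (s : Set W2) (hs : Cardinal.mk s ≤ ℵ₁) : ∃ b, ∀ x ∈ s, x < b := by
  have h : sSup (Subtype.val '' s) < ω_ 2 := by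
    refine Ordinal.sSup_lt_of_lt_cof ((mk_image_le.trans hs).trans_lt ?_) ?_
    · rw [← one_add_one_eq_two, Ordinal.lift_omega, Ordinal.lift_add, Ordinal.lift_one,
        Cardinal.cof_omega_add_one]
      exact Cardinal.aleph_lt_aleph.2 (lt_add_one _)
    · rintro _ ⟨x, -, rfl⟩
      exact x.2
  have hl : Order.IsSuccLimit (ω_ 2 : Ordinal.{0}) := Cardinal.isSuccLimit_omega 2
  refine ⟨⟨_, hl.succ_lt h⟩, fun x hx => Subtype.mk_lt_mk.2 (Order.lt_succ_of_le ?_)⟩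
  exact le_csSup ⟨ω_ 2, by rintro _ ⟨y, -, rfl⟩; exact le_of_lt y.2⟩ ⟨x, hx, rfl⟩

theorem ord2 : Ord2 W1 W2 := by
  refine ⟨w1_bdd, w1_ctble, fun g => ?_, fun s hs => w2_bdd s ?_⟩
  · obtain ⟨b, hb⟩ := w2_bdd (range g) (mk_range_le.trans mk_w1.le)
    exact ⟨b, fun i => hb _ ⟨i, rfl⟩⟩
  · exact (Cardinal.le_aleph0_iff_set_countable.2 hs).trans (Cardinal.aleph0_le_aleph 1)

theorem club_cl (g : W1 → W1) : IsClub {a | Cl g a} := by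
  refine ⟨?_, fun a => ?_⟩
  · rintro d hd ⟨x, hx⟩ - a ha
    obtain ⟨ξ, hξ⟩ := (hd hx).1
    refine ⟨⟨ξ, hξ.trans_le (ha.1 hx)⟩, fun ζ hζ => ?_⟩
    obtain ⟨y, hy, l, l'⟩ := ha.exists_between hζ
    exact ((hd hy).2 ζ l).trans_le l'
  · obtain ⟨b, hb, h⟩ := good_Ioi w1_bdd w1_ctble a g
    exact ⟨b, h, le_of_lt hb⟩

theorem stat_good {S : Set W1} (h : IsStationary S) : Good S := fun g => h (club_cl g)

theorem fa_of_mm (h : MartinsMaximum) : FA W1 := by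
  intro P _ _ hP E hE
  have h1 : #(W1 × ℕ) ≤ #W1 := by
    rw [Cardinal.mk_prod, mk_w1]
    simp
  obtain ⟨j⟩ := (Cardinal.le_def _ _).1 h1
  have : Nonempty (W1 × ℕ) := ⟨(⟨0, Ordinal.omega_pos 1⟩, 0)⟩
  obtain ⟨G, hG⟩ := h P (fun S hS => hP S (stat_good hS)) (fun i => E (Function.invFun j i))
    fun i => hE _
  refine ⟨G, fun p hp q hq => G.directed p hp q hq, fun i => ?_⟩
  have := hG (j i)
  rwa [Function.leftInverse_invFun j.injective i] at this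

theorem main_mm (h : MartinsMaximum) {F : W2 → W2 → Ordinal.{0}}
    (hF : ∀ b col, {y | y < b ∧ F y b = col}.Finite) (α : Ordinal.{0}) (hα : α ≤ ω_ 1 * 2) :
    ∃ ψ : Iio α → W2, StrictMono ψ ∧ (∀ b ∈ range ψ, Inj F b (range ψ)) ∧
      ∀ γ : W2, (∃ u ∈ range ψ, γ < u) → (∀ x < γ, ∃ u ∈ range ψ, x < u ∧ u < γ) →
        γ ∈ range ψ := by
  classical
  have : Nonempty W1 := ⟨⟨0, Ordinal.omega_pos 1⟩⟩
  have : Nonempty W2 := ⟨⟨0, Ordinal.omega_pos 2⟩⟩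
  have h12 : (ω_ 1 : Ordinal.{0}) < ω_ 2 := Ordinal.omega_lt_omega.2 one_lt_two
  obtain ⟨e0, e1, m0, m1, h01, hz, hc, hi⟩ := main_abs ord2 (fa_of_mm h) hF
    (z := ⟨0, Ordinal.omega_pos 2⟩) (fun y => Subtype.mk_le_mk.2 zero_le)
    (c0 := fun a => ⟨a.1, lt_trans a.2 h12⟩) fun a b e => Subtype.ext (congrArg (·.1) e)
  have h2 : (ω_ 1 : Ordinal.{0}) * 2 = ω_ 1 + ω_ 1 := by
    rw [← one_add_one_eq_two, mul_add, mul_one]
  let φ : Iio (ω_ 1 + ω_ 1 : Ordinal.{0}) → W2 := fun x =>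
    if hx : x.1 < ω_ 1 then e0 ⟨x.1, hx⟩
    else e1 ⟨x.1 - ω_ 1, Ordinal.sub_lt_of_lt_add x.2 (Ordinal.omega_pos 1)⟩
  have hφ : StrictMono φ := by
    intro x y l
    have l' : x.1 < y.1 := l
    by_cases hx : x.1 < ω_ 1 <;> by_cases hy : y.1 < ω_ 1 <;> simp only [φ, hx, hy, dite_true,
      dite_false]
    · exact m0 l
    · exact h01 _ _
    · exact absurd (l'.trans hy) hx
    · refine m1 (Subtype.mk_lt_mk.2 (lt_of_add_lt_add_left (a := ω_ 1) ?_))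
      rwa [Ordinal.add_sub_cancel_of_le (not_lt.1 hx), Ordinal.add_sub_cancel_of_le (not_lt.1 hy)]
  have hr : range φ = range e0 ∪ range e1 := by
    apply subset_antisymm
    · rintro _ ⟨x, rfl⟩
      by_cases hx : x.1 < ω_ 1 <;> simp only [φ, hx, dite_true, dite_false]
      · exact Or.inl ⟨_, rfl⟩
      · exact Or.inr ⟨_, rfl⟩
    · rintro _ (⟨x, rfl⟩ | ⟨x, rfl⟩)
      · have hx : x.1 < ω_ 1 := x.2
        exact ⟨⟨x.1, hx.trans_le le_self_add⟩, by simp only [φ, hx, dite_true]⟩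
      · have hx : ¬ ω_ 1 + x.1 < ω_ 1 := not_lt.2 le_self_add
        exact ⟨⟨ω_ 1 + x.1, add_lt_add_right (show x.1 < ω_ 1 from x.2) (ω_ 1)⟩, by
          simp only [φ, hx, dite_false, Ordinal.add_sub_cancel]⟩
  rw [← hr] at hc hi
  let ι : Iio α → Iio (ω_ 1 + ω_ 1 : Ordinal.{0}) := fun x => ⟨x.1, lt_of_lt_of_le x.2 (h2 ▸ hα)⟩
  have hs : range (φ ∘ ι) ⊆ range φ := range_comp_subset_range _ _
  refine ⟨φ ∘ ι, hφ.comp fun x y l => l, fun b hb => (hi b (hs hb)).mono hs, ?_⟩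
  rintro γ ⟨_, ⟨u, rfl⟩, l⟩ hl
  obtain ⟨x, rfl⟩ : γ ∈ range φ := by
    rcases eq_or_ne γ ⟨0, Ordinal.omega_pos 2⟩ with rfl | h0
    · exact hr ▸ Or.inl hz
    · have hl' : ∀ x < γ, ∃ u ∈ range φ, x < u ∧ u < γ := fun x hx =>
        (hl x hx).imp fun _ h => ⟨hs h.1, h.2⟩
      exact hc γ ⟨_, ⟨_, rfl⟩, l.le⟩ ((hl' _ (lt_of_le_of_ne (Subtype.mk_le_mk.2 zero_le)
        h0.symm)).imp fun _ h => ⟨h.1, h.2.2⟩) hl'
  exact ⟨⟨x.1, lt_trans (show x.1 < u.1 from hφ.lt_iff_lt.1 l) u.2⟩, rfl⟩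

end Pool.Agent.P.MP_78ae2c_lc.MMx
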