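import Pool.Agent.P.MP_78ae2c_lc.Ulam

/-! Ladders and the matching below each ordinal. -/

namespace Pool.Agent.P.MP_78ae2c_lc

open Set

universe u

variable {W : Type u} [LinearOrder W]

/-- `c` is a continuous increasing enumeration of a cofinal subset of `δ`. -/
structure Lad (δ : Ordinal.{0}) (c : W → Ordinal.{0}) : Prop where
  mono : StrictMono c
  lt : ∀ η, c η < δ
  cof : ∀ γ < δ, ∃ η, γ ≤ c η
  cont : ∀ η, (∃ ξ, ξ < η) → (∀ ξ < η, ∃ ζ, ξ < ζ ∧ ζ < η) → ∀ γ < c η, ∃ ξ < η, γ ≤ c ξ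

theorem Lad.agree (h0 : ∀ x : W, ∃ y, x < y) {δ : Ordinal.{0}} {c a : W → Ordinal.{0}}
    (hc : Lad δ c) (ha : Lad δ a) : ∃ g : W → W, ∀ η, Cl g η → c η = a η := by
  have : ∀ ξ, ∃ ζ, ξ < ζ ∧ a ξ ≤ c ζ ∧ c ξ ≤ a ζ := by
    intro ξ
    obtain ⟨y, hy⟩ := h0 ξ
    obtain ⟨η1, h1⟩ := hc.cof _ (ha.lt ξ)
    obtain ⟨η2, h2⟩ := ha.cof _ (hc.lt ξ)
    refine ⟨max y (max η1 η2), lt_max_of_lt_left hy, ?_, ?_⟩
    · exact h1.trans (hc.mono.monotone ((le_max_left _ _).trans (le_max_right _ _)))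
    · exact h2.trans (ha.mono.monotone ((le_max_right _ _).trans (le_max_right _ _)))
  choose g hg using this
  refine ⟨g, fun η hη => ?_⟩
  have hlim : ∀ ξ < η, ∃ ζ, ξ < ζ ∧ ζ < η := fun ξ hξ => ⟨g ξ, (hg ξ).1, hη.2 ξ hξ⟩
  rcases lt_trichotomy (c η) (a η) with h | h | h
  · obtain ⟨ξ, hξ, h'⟩ := ha.cont η hη.1 hlim _ h
    exact absurd (h'.trans (hg ξ).2.1) (not_le.2 (hc.mono (hη.2 ξ hξ)))
  · exact h
  · obtain ⟨ξ, hξ, h'⟩ := hc.cont η hη.1 hlim _ h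
    exact absurd (h'.trans (hg ξ).2.2) (not_le.2 (ha.mono (hη.2 ξ hξ)))

/-- Stage `η` uses two points not used by any earlier stage. -/
def Succ (β : Ordinal.{0}) (x y : W → Ordinal.{0}) (η : W) : Prop :=
  x η < β ∧ ∀ ξ < η, x η ≠ x ξ ∧ x η ≠ y ξ ∧ y η ≠ x ξ ∧ y η ≠ y ξ

open Classical in
/-- The representative of a point under the matching. -/
noncomputable def rep (β : Ordinal.{0}) (x y : W → Ordinal.{0}) (γ : Ordinal.{0}) : Ordinal.{0} :=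
  if h : ∃ η, Succ β x y η ∧ y η = γ then x h.choose else γ

theorem rep_lt {β : Ordinal.{0}} (x y : W → Ordinal.{0}) {γ : Ordinal.{0}} (h : γ < β) :
    rep β x y γ < β := by
  unfold rep
  split_ifs with h'
  · exact h'.choose_spec.1.1
  · exact h

theorem Succ.eq_of_x {β : Ordinal.{0}} {x y : W → Ordinal.{0}} {η ξ : W} (h1 : Succ β x y η)
    (h2 : Succ β x y ξ) (h : x η = x ξ) : η = ξ := by
  rcases lt_trichotomy η ξ with h' | h' | h'
  · exact absurd h.symm (h2.2 η h').1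
  · exact h'
  · exact absurd h (h1.2 ξ h').1

theorem Succ.eq_of_y {β : Ordinal.{0}} {x y : W → Ordinal.{0}} {η ξ : W} (h1 : Succ β x y η)
    (h2 : Succ β x y ξ) (h : y η = y ξ) : η = ξ := by
  rcases lt_trichotomy η ξ with h' | h' | h'
  · exact absurd h.symm (h2.2 η h').2.2.2
  · exact h'
  · exact absurd h (h1.2 ξ h').2.2.2

theorem Succ.rep_y {β : Ordinal.{0}} {x y : W → Ordinal.{0}} {η : W} (h1 : Succ β x y η) :
    rep β x y (y η) = x η := by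
  have h : ∃ ξ, Succ β x y ξ ∧ y ξ = y η := ⟨η, h1, rfl⟩
  unfold rep
  rw [dif_pos h, h.choose_spec.1.eq_of_y h1 h.choose_spec.2]

theorem Succ.rep_x {β : Ordinal.{0}} {x y : W → Ordinal.{0}} {η : W} (h1 : Succ β x y η) :
    rep β x y (x η) = x η := by
  unfold rep
  split_ifs with h
  · obtain ⟨h2, h3⟩ := h.choose_spec
    rcases lt_trichotomy η h.choose with h' | h' | h'
    · exact absurd h3 (h2.2 η h').2.2.1
    · rw [← h']
    · exact absurd h3.symm (h1.2 _ h').2.1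
  · rfl

theorem rep_fiber (β : Ordinal.{0}) (x y : W → Ordinal.{0}) (u : Ordinal.{0}) :
    ∃ v, ∀ γ, rep β x y γ = u → γ = u ∨ γ = v := by
  by_cases h : ∃ η, Succ β x y η ∧ x η = u
  · obtain ⟨η, h1, h2⟩ := h
    refine ⟨y η, fun γ hγ => ?_⟩
    unfold rep at hγ
    split_ifs at hγ with h'
    · right
      obtain ⟨h3, h4⟩ := h'.choose_spec
      rw [← h4, h3.eq_of_x h1 (hγ.trans h2.symm)]
    · left; exact hγ
  · refine ⟨u, fun γ hγ => ?_⟩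
    unfold rep at hγ
    split_ifs at hγ with h'
    · exact absurd ⟨_, h'.choose_spec.1, hγ⟩ h
    · left; exact hγ

theorem exists_fresh (h1 : ∀ s : Set W, s.Countable → ∃ b, ∀ x ∈ s, x < b)
    (x y c d : W → Ordinal.{0}) (hc : Function.Injective c) (hd : Function.Injective d) :
    ∃ g : W → W, ∀ η, Cl g η → ∀ ξ < η,
      c η ≠ x ξ ∧ c η ≠ y ξ ∧ d η ≠ x ξ ∧ d η ≠ y ξ := by
  have : ∀ ξ, ∃ b, ∀ η, (c η = x ξ ∨ c η = y ξ ∨ d η = x ξ ∨ d η = y ξ) → η < b := by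
    intro ξ
    obtain ⟨b, hb⟩ := h1 (c ⁻¹' {x ξ, y ξ} ∪ d ⁻¹' {x ξ, y ξ})
      ((((toFinite _).preimage hc.injOn).union ((toFinite _).preimage hd.injOn)).countable)
    refine ⟨b, fun η hη => hb η ?_⟩
    simp only [mem_union, mem_preimage, mem_insert_iff, mem_singleton_iff]
    tauto
  choose g hg using this
  refine ⟨g, fun η hη ξ hξ => ?_⟩
  have h := hη.2 ξ hξ
  have h' := hg ξ η
  refine ⟨fun e => ?_, fun e => ?_, fun e => ?_, fun e => ?_⟩ <;>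
    exact absurd (h' (by tauto)) (not_lt.2 h.le)

open Classical in
/-- A chosen ladder for `δ`, when there is one. -/
noncomputable def lad (W : Type u) [LinearOrder W] (δ : Ordinal.{0}) : W → Ordinal.{0} :=
  if h : ∃ c : W → Ordinal.{0}, Lad δ c then h.choose else fun _ => 0

theorem lad_spec {δ : Ordinal.{0}} {a : W → Ordinal.{0}} (ha : Lad δ a) : Lad δ (lad W δ) := by
  have h : ∃ c : W → Ordinal.{0}, Lad δ c := ⟨a, ha⟩
  unfold lad
  rw [dif_pos h]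
  exact h.choose_spec

/-- The matching at `β` joins points of any two ladders below `β`. -/
theorem exists_match (h1 : ∀ s : Set W, s.Countable → ∃ b, ∀ x ∈ s, x < b)
    (β : Ordinal.{0}) (p : W → Ordinal.{0} × Ordinal.{0})
    (hp : ∀ δ₀ ≤ β, ∀ δ₁ ≤ β, Good {η | p η = (δ₀, δ₁)})
    {δ₀ δ₁ : Ordinal.{0}} (h₀ : δ₀ ≤ β) (h₁ : δ₁ ≤ β) {a₀ a₁ : W → Ordinal.{0}}
    (ha₀ : Lad δ₀ a₀) (ha₁ : Lad δ₁ a₁) :
    ∃ η, rep β (fun η => lad W (p η).1 η) (fun η => lad W (p η).2 η) (a₀ η) =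
      rep β (fun η => lad W (p η).1 η) (fun η => lad W (p η).2 η) (a₁ η) := by
  have h0 : ∀ x : W, ∃ y, x < y := fun x => by
    obtain ⟨b, hb⟩ := h1 {x} (countable_singleton x)
    exact ⟨b, hb x rfl⟩
  have hc₀ := lad_spec ha₀
  have hc₁ := lad_spec ha₁
  obtain ⟨g₀, hg₀⟩ := hc₀.agree h0 ha₀
  obtain ⟨g₁, hg₁⟩ := hc₁.agree h0 ha₁
  set x : W → Ordinal.{0} := fun η => lad W (p η).1 η with hx
  set y : W → Ordinal.{0} := fun η => lad W (p η).2 η with hy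
  obtain ⟨g₂, hg₂⟩ := exists_fresh h1 x y (lad W δ₀) (lad W δ₁) hc₀.mono.injective
    hc₁.mono.injective
  obtain ⟨η, hη, hcl⟩ := hp δ₀ h₀ δ₁ h₁ (fun ξ => max (g₀ ξ) (max (g₁ ξ) (g₂ ξ)))
  have e₀ := hg₀ η ⟨hcl.1, fun ξ hξ => (le_max_left _ _).trans_lt (hcl.2 ξ hξ)⟩
  have e₁ := hg₁ η ⟨hcl.1, fun ξ hξ =>
    ((le_max_left _ _).trans (le_max_right _ _)).trans_lt (hcl.2 ξ hξ)⟩
  have e₂ := hg₂ η ⟨hcl.1, fun ξ hξ =>
    ((le_max_right _ _).trans (le_max_right _ _)).trans_lt (hcl.2 ξ hξ)⟩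
  have hpη : p η = (δ₀, δ₁) := hη
  have hxη : x η = lad W δ₀ η := by simp only [hx, hpη]
  have hyη : y η = lad W δ₁ η := by simp only [hy, hpη]
  have hs : Succ β x y η := by
    refine ⟨?_, ?_⟩
    · rw [hxη]; exact (hc₀.lt η).trans_le h₀
    · rw [hxη, hyη]; exact e₂
  refine ⟨η, ?_⟩
  rw [← e₀, ← e₁, ← hxη, ← hyη, hs.rep_x, hs.rep_y]

end Pool.Agent.P.MP_78ae2c_lc
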