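import Mathlib

/-! Closure points of functions on an order of type omega one, and an Ulam splitting. -/

namespace Pool.Agent.P.MP_78ae2c_lc

open Set

universe u

variable {W : Type u} [LinearOrder W]

/-- A nonminimal point closed under `g`. -/
def Cl (g : W → W) (η : W) : Prop := (∃ ξ, ξ < η) ∧ ∀ ξ < η, g ξ < η

/-- A set meeting the closure points of every function. -/
def Good (S : Set W) : Prop := ∀ g : W → W, ∃ η ∈ S, Cl g η

theorem good_Ioi [WellFoundedLT W]
    (h1 : ∀ s : Set W, s.Countable → ∃ b, ∀ x ∈ s, x < b)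
    (h2 : ∀ x : W, (Iic x).Countable) (i : W) : Good (Ioi i) := by
  intro g
  have hb : ∀ x : W, ∃ b, x < b ∧ ∀ y ≤ x, g y < b := by
    intro x
    obtain ⟨b, hb⟩ := h1 (insert x (g '' Iic x)) (((h2 x).image g).insert x)
    exact ⟨b, hb x (mem_insert _ _), fun y hy => hb _ (mem_insert_of_mem _ ⟨y, hy, rfl⟩)⟩
  choose h hh hg using hb
  let x : ℕ → W := fun n => h^[n] i
  have hx : ∀ n, x (n + 1) = h (x n) := fun n => Function.iterate_succ_apply' h n i
  obtain ⟨b, hb⟩ := h1 (range x) (countable_range x)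
  let U : Set W := {b | ∀ n, x n < b}
  have hU : U.Nonempty := ⟨b, fun n => hb _ ⟨n, rfl⟩⟩
  let η := wellFounded_lt.min U hU
  have hη : η ∈ U := wellFounded_lt.min_mem U hU
  refine ⟨η, hη 0, ⟨i, hη 0⟩, fun ξ hξ => ?_⟩
  have : ξ ∉ U := fun h => wellFounded_lt.not_lt_min U h hξ
  simp only [U, mem_ofPred_eq, not_forall, not_lt] at this
  obtain ⟨n, hn⟩ := this
  have := hg (x n) ξ hn
  rw [← hx] at this
  exact this.trans (hη _)

theorem good_union
    (h1 : ∀ s : Set W, s.Countable → ∃ b, ∀ x ∈ s, x < b)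
    (S : ℕ → Set W) (h : Good (⋃ n, S n)) : ∃ n, Good (S n) := by
  by_contra hc
  simp only [Good, not_exists, not_forall, not_and] at hc
  choose g hg using hc
  have hb : ∀ x : W, ∃ b, ∀ n, g n x < b := by
    intro x
    obtain ⟨b, hb⟩ := h1 (range fun n => g n x) (countable_range _)
    exact ⟨b, fun n => hb _ ⟨n, rfl⟩⟩
  choose G hG using hb
  obtain ⟨η, hη, hcl⟩ := h G
  obtain ⟨n, hn⟩ := mem_iUnion.1 hη
  exact hg n η hn ⟨hcl.1, fun ξ hξ => (hG ξ n).trans (hcl.2 ξ hξ)⟩

/-- Ulam splitting: uncountably many pairwise disjoint good sets. -/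
theorem ulam [WellFoundedLT W]
    (h1 : ∀ s : Set W, s.Countable → ∃ b, ∀ x ∈ s, x < b)
    (h2 : ∀ x : W, (Iic x).Countable) :
    ∃ (I : Set W) (φ : W → W), ¬ I.Countable ∧ ∀ i ∈ I, Good {η | φ η = i} := by
  classical
  have hf : ∀ η : W, ∃ f : W → ℕ, InjOn f (Iic η) := fun η =>
    countable_iff_exists_injOn.1 (h2 η)
  choose f hf using hf
  have hn : ∀ i : W, ∃ n, Good {η | i < η ∧ f η i = n} := by
    intro i
    apply good_union h1
    intro g
    obtain ⟨η, hη, hcl⟩ := good_Ioi h1 h2 i g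
    exact ⟨η, mem_iUnion.2 ⟨f η i, hη, rfl⟩, hcl⟩
  choose n hn using hn
  have hunc : ¬ (univ : Set W).Countable := by
    intro h
    obtain ⟨b, hb⟩ := h1 univ h
    exact lt_irrefl _ (hb b (mem_univ _))
  have : ∃ m, ¬ {i | n i = m}.Countable := by
    by_contra hc
    push Not at hc
    apply hunc
    have : (univ : Set W) = ⋃ m, {i | n i = m} := by
      ext i; simp
    rw [this]
    exact countable_iUnion hc
  obtain ⟨m, hm⟩ := this
  refine ⟨{i | n i = m}, fun η => if h : ∃ i, i < η ∧ f η i = m then h.choose else η, hm, ?_⟩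
  intro i hi g
  obtain ⟨η, hη, hcl⟩ := hn i g
  refine ⟨η, ?_, hcl⟩
  have hex : ∃ i, i < η ∧ f η i = m := ⟨i, hη.1, hη.2.trans hi⟩
  simp only [mem_ofPred_eq, dif_pos hex]
  have := hex.choose_spec
  exact hf η this.1.le hη.1.le (this.2.trans (hη.2.trans hi).symm)

end Pool.Agent.P.MP_78ae2c_lc
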